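import Pool.Agent.Lib.MP_cc2398_al.OE.Spec

/-!
# MP_cc2398_al, project OE: elements in different double cosets (`S_DC`)
-/

set_option autoImplicit false

namespace Pool.Agent.MPcc2398.OE

open Pool.Agent.MPcc2398

universe u

namespace DCaux

theorem cj_ne_top {G : Type u} [Group G] {H : Subgroup G} (h : H ≠ ⊤) (g : G) : cj g H ≠ ⊤ := by
  intro h1
  apply h
  have h2 : cj g⁻¹ (cj g H) = H := by
    rw [← cj_mul, inv_mul_cancel, cj_one]
  rw [← h2, h1, cj_top]

theorem relIndex_cj {G : Type u} [Group G] (x : G) (A B : Subgroup G) :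
    (cj x A).relIndex (cj x B) = A.relIndex B :=
  Subgroup.relIndex_map_map_of_injective A B (MulAut.conj x).injective

/-- The left cosets in a double coset form a finite set. -/
theorem fin {G : Type u} [Group G] {H : Subgroup G} (x : G) (hx : (cj x H).relIndex H ≠ 0) :
    (Set.range fun h : H => (QuotientGroup.mk ((h : G) * x) : G ⧸ H)).Finite := by
  have hF : ((cj x H).subgroupOf H).FiniteIndex := ⟨hx⟩
  have hf : Finite (H ⧸ (cj x H).subgroupOf H) := Subgroup.finite_quotient_of_finiteIndex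
  refine (Set.finite_range fun q : H ⧸ (cj x H).subgroupOf H =>
    (QuotientGroup.mk (((q.out : H) : G) * x) : G ⧸ H)).subset ?_
  rintro _ ⟨h, rfl⟩
  refine ⟨QuotientGroup.mk h, ?_⟩
  obtain ⟨s, hs⟩ := QuotientGroup.mk_out_eq_mul ((cj x H).subgroupOf H) h
  have h1 : ((s : H) : G) ∈ cj x H := Subgroup.mem_subgroupOf.1 s.2
  rw [mem_cj'] at h1
  change (QuotientGroup.mk ((((QuotientGroup.mk h : H ⧸ (cj x H).subgroupOf H).out : H) : G) * x) : G ⧸ H) = _
  rw [hs]
  rw [QuotientGroup.eq]
  have h2 : ((((h * (s : H) : H)) : G) * x)⁻¹ * ((h : G) * x) = (x⁻¹ * ((s : H) : G) * x)⁻¹ := by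
    rw [Subgroup.coe_mul]
    group
  rw [h2]
  exact H.inv_mem h1

end DCaux

open DCaux in
/-- Elements in different double cosets. -/
theorem vDC : S_DC.{u} := by
  intro G _ H hTB
  have hne : H ≠ ⊤ := by
    rintro rfl
    have h1 := hTB.idx
    rw [Subgroup.index_top] at h1
    exact one_ne_zero h1
  have hI : Inert H := fun g => hTB.rel _ (cj_ne_top hne g)
  refine ⟨hI, ?_⟩
  have hI' : ∀ x : G, (cj x H).relIndex H ≠ 0 := by
    intro x
    have h1 := hI x⁻¹
    have h2 := relIndex_cj x H (cj x⁻¹ H)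
    rw [← cj_mul, mul_inv_cancel, cj_one] at h2
    rw [h2]
    exact h1
  have hinf : Infinite (G ⧸ H) := by
    by_contra h
    rw [not_infinite_iff_finite] at h
    exact Subgroup.index_ne_zero_of_finite hTB.idx
  obtain ⟨g, -, hg⟩ := exists_seq_of_forall_finset_exists (α := G) (fun _ => True)
    (fun x y => ∀ a ∈ H, ∀ b ∈ H, a * x * b ≠ y) (by
      intro s _
      have hfin : (⋃ x ∈ s, Set.range fun h : H => (QuotientGroup.mk ((h : G) * x) : G ⧸ H)).Finite :=
        s.finite_toSet.biUnion fun x _ => fin x (hI' x)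
      obtain ⟨q, hq⟩ := hfin.exists_notMem
      obtain ⟨y, rfl⟩ := QuotientGroup.mk_surjective q
      refine ⟨y, trivial, ?_⟩
      intro x hx a ha b hb hab
      apply hq
      rw [Set.mem_iUnion₂]
      refine ⟨x, hx, ⟨a, ha⟩, ?_⟩
      change (QuotientGroup.mk (a * x) : G ⧸ H) = _
      rw [QuotientGroup.eq, ← hab]
      have h1 : (a * x)⁻¹ * (a * x * b) = b := by group
      rw [h1]
      exact hb)
  refine ⟨g, ?_⟩
  intro i j hij a ha b hb hab
  rcases lt_or_gt_of_ne hij with h | h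
  · exact hg i j h a ha b hb hab
  · refine hg j i h a⁻¹ (H.inv_mem ha) b⁻¹ (H.inv_mem hb) ?_
    rw [← hab]
    group

end Pool.Agent.MPcc2398.OE
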