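import Pool.Agent.Lib.MP_cc2398_al.OE.Spec

/-!
# MP_cc2398_al, project OE: the free group is everything
-/

set_option autoImplicit false

namespace Pool.Agent.MPcc2398.OE

open Pool.Agent.MPcc2398

universe u

/-- No sequence of elements in different cosets generates a free group freely. -/
theorem vFin : S_Fin.{u} := by
  intro G _ H hTB h hne hinj
  have hK : (FreeGroup.lift h).range = ⊤ := by
    by_contra hK
    have h1 := hTB.rel _ hK
    have hfin : Finite ((FreeGroup.lift h).range ⧸ H.subgroupOf (FreeGroup.lift h).range) :=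
      Subgroup.index_ne_zero_iff_finite.1 h1
    have hm : ∀ i, h i ∈ (FreeGroup.lift h).range := fun i => ⟨FreeGroup.of i, FreeGroup.lift_apply_of⟩
    obtain ⟨i, j, hij, he⟩ := Finite.exists_ne_map_eq_of_infinite
      (fun i : ℕ => (QuotientGroup.mk (⟨h i, hm i⟩ : (FreeGroup.lift h).range) :
        (FreeGroup.lift h).range ⧸ H.subgroupOf (FreeGroup.lift h).range))
    have h2 := QuotientGroup.eq.1 he
    rw [Subgroup.mem_subgroupOf] at h2
    exact hne i j hij h2
  have hsurj : Function.Surjective (FreeGroup.lift h) := MonoidHom.range_eq_top.1 hK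
  let e : FreeGroup ℕ ≃* G := MulEquiv.ofBijective (FreeGroup.lift h) ⟨hinj, hsurj⟩
  let f : G →* Multiplicative (ZMod 2) :=
    (FreeGroup.lift fun _ : ℕ => Multiplicative.ofAdd (1 : ZMod 2)).comp e.symm.toMonoidHom
  have hf : f (h 0) = Multiplicative.ofAdd (1 : ZMod 2) := by
    have h1 : e.symm (h 0) = FreeGroup.of 0 := by
      rw [MulEquiv.symm_apply_eq]
      exact FreeGroup.lift_apply_of.symm
    change FreeGroup.lift (fun _ : ℕ => Multiplicative.ofAdd (1 : ZMod 2)) (e.symm (h 0)) = _
    rw [h1]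
    exact FreeGroup.lift_apply_of
  have hN : f.ker ≠ ⊤ := by
    intro h0
    have h1 : h 0 ∈ f.ker := by
      rw [h0]
      exact Subgroup.mem_top _
    rw [MonoidHom.mem_ker, hf] at h1
    exact absurd h1 (by decide)
  have hNi : f.ker.index ≠ 0 := by
    rw [Subgroup.index_ker]
    exact Nat.card_pos.ne'
  have h1 := hTB.rel _ hN
  have h2 : (H ⊓ f.ker).index ≠ 0 := by
    rw [← Subgroup.relIndex_mul_index (inf_le_right : H ⊓ f.ker ≤ f.ker), Subgroup.inf_relIndex_right]
    exact mul_ne_zero h1 hNi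
  apply h2
  have h3 := Subgroup.index_dvd_of_le (inf_le_left : H ⊓ f.ker ≤ H)
  rw [hTB.idx] at h3
  exact zero_dvd_iff.1 h3

end Pool.Agent.MPcc2398.OE
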