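import Pool.Agent.Lib.MP_cc2398_al.OE.Spec

/-!
# MP_cc2398_al, project OE, module E: the sets `t ^ l P` shrink to an end
-/

set_option autoImplicit false

namespace Pool.Agent.MPcc2398.OE

open Pool.Agent.MPcc2398

universe u

theorem vE (hBas : S_Bas.{u}) (hN : S_N.{u}) : S_E.{u} := by
  intro X _ hX P M C t z hP hM hC hd ht hzP hzM
  have tP : ∀ y ∈ P, t * y ∈ P := fun y hy => ht y (fun h => Set.disjoint_left.1 hd hy h)
  have tz : ∀ l : ℕ, t ^ (l + 1) * z ∈ P := by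
    intro l
    induction l with
    | zero => simpa using ht z hzM
    | succ l ih =>
      rw [pow_succ' t (l + 1), mul_assoc]
      exact tP _ ih
  have tiM : ∀ y, y ∉ P → t⁻¹ * y ∈ M := by
    intro y hy
    by_contra h
    exact hy (by simpa using ht _ h)
  have tiz : ∀ l : ℕ, (t ^ (l + 1))⁻¹ * z ∈ M := by
    intro l
    induction l with
    | zero => simpa using tiM z hzP
    | succ l ih =>
      rw [pow_succ t (l + 1), mul_inv_rev, mul_assoc]
      exact tiM _ (fun h => Set.disjoint_left.1 hd h ih)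
  have inj : Function.Injective (fun l : ℕ => t ^ l) := by
    rw [injective_pow_iff_not_isOfFinOrder, isOfFinOrder_iff_pow_eq_one]
    rintro ⟨n, hn, h⟩
    obtain ⟨m, rfl⟩ : ∃ m, n = m + 1 := ⟨n - 1, by omega⟩
    have h1 := tz m
    rw [h, one_mul] at h1
    exact hzP h1
  have inj' : Function.Injective (fun l : ℕ => (t ^ l)⁻¹) := fun a b h => inj (inv_injective h)
  obtain ⟨Φ₁, h1, h1'⟩ := hN X hX P C hP hC
  obtain ⟨Φ₂, h2, h2'⟩ := hN X hX P Cᶜ hP (hBas X C C hC hC).1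
  have fin1 : {l : ℕ | t ^ l ∈ Φ₁ ∪ Φ₂}.Finite := Set.Finite.preimage inj.injOn (h1.union h2)
  have fin2 : {l : ℕ | (t ^ l)⁻¹ ∈ {y | y ∈ P ∧ y * z ∉ P}}.Finite :=
    Set.Finite.preimage inj'.injOn (hP z)
  obtain ⟨n, hn⟩ := (fin1.union fin2).bddAbove
  refine ⟨n + 1, fun l hl => ?_⟩
  have hl1 : t ^ l ∉ Φ₁ ∪ Φ₂ := by
    intro h
    have : l ≤ n := hn (Or.inl h)
    omega
  have hl2 : (t ^ l)⁻¹ ∉ P := by
    intro h
    obtain ⟨m, rfl⟩ : ∃ m, l = m + 1 := ⟨l - 1, by omega⟩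
    have : m + 1 ≤ n := hn (Or.inr ⟨h, fun h' => Set.disjoint_left.1 hd h' (tiz m)⟩)
    omega
  by_cases hc : t ^ l ∈ C
  · exact Or.inl (h1' _ (fun h => hl1 (Or.inl h)) hl2 hc)
  · exact Or.inr (h2' _ (fun h => hl1 (Or.inr h)) hl2 hc)

end Pool.Agent.MPcc2398.OE
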