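import Pool.Agent.Lib.MP_cc2398_al.OE.Spec

/-!
# MP_cc2398_al, project OE: extension of subsets of `H` to `G`
-/

set_option autoImplicit false

namespace Pool.Agent.MPcc2398.OE

open Pool.Agent.MPcc2398

universe u

namespace EXaux

variable {G : Type u} [Group G] (H : Subgroup G)

theorem rp_mem (y : G) : y * (rp H y)⁻¹ ∈ H := by
  have h : (QuotientGroup.rightRel H) (rp H y) y := Quotient.mk_out (s := QuotientGroup.rightRel H) y
  exact QuotientGroup.rightRel_apply.1 h

theorem rp_congr {y z : G} (h : y * z⁻¹ ∈ H) : rp H y = rp H z := by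
  unfold rp
  congr 1
  apply Quotient.sound
  change (QuotientGroup.rightRel H) y z
  rw [QuotientGroup.rightRel_apply]
  have := H.inv_mem h
  simpa using this

theorem mem_EX (A : Set H) (y : G) :
    y ∈ EX H A ↔ ∃ h : H, h ∈ A ∧ (h : G) = y * (rp H y)⁻¹ := by
  constructor
  · rintro ⟨h, hA, hy⟩
    exact ⟨h, hA, eq_mul_inv_iff_mul_eq.2 hy⟩
  · rintro ⟨h, hA, hy⟩
    exact ⟨h, hA, eq_mul_inv_iff_mul_eq.1 hy⟩

end EXaux

open EXaux in
theorem vEX : S_EX.{u} := by
  intro G _ H A
  refine ⟨mem_EX H A, ?_, ?_, ?_, ?_, ?_⟩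
  · intro t y
    have hr : rp H ((t : G) * y) = rp H y := rp_congr H (by simp)
    rw [mem_EX, mem_EX, hr]
    constructor
    · rintro ⟨h, hA, hy⟩
      refine ⟨t⁻¹ * h, ?_, ?_⟩
      · simpa using hA
      · rw [Subgroup.coe_mul, hy, Subgroup.coe_inv]
        group
    · rintro ⟨h, hA, hy⟩
      refine ⟨t * h, hA, ?_⟩
      rw [Subgroup.coe_mul, hy]
      group
  · intro hA g z
    have hx : rp H z * g * (rp H (z * g))⁻¹ ∈ H := by
      have h1 := H.inv_mem (rp_mem H z)
      have h2 := rp_mem H (z * g)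
      have h3 := H.mul_mem h1 h2
      have h4 : (z * (rp H z)⁻¹)⁻¹ * (z * g * (rp H (z * g))⁻¹) =
          rp H z * g * (rp H (z * g))⁻¹ := by group
      rwa [h4] at h3
    refine ((hA ⟨_, hx⟩).image (fun v : H => (v : G) * rp H z)).subset ?_
    rintro y ⟨⟨hy1, hy2⟩, hyz⟩
    have hr : rp H y = rp H z := rp_congr H hyz
    have hrg : rp H (y * g) = rp H (z * g) := by
      apply rp_congr H
      have : y * g * (z * g)⁻¹ = y * z⁻¹ := by group
      rwa [this]
    obtain ⟨h, hhA, hh⟩ := (mem_EX H A y).1 hy1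
    rw [hr] at hh
    refine ⟨h, ⟨hhA, fun hcon => hy2 ?_⟩, ?_⟩
    · rw [mem_EX]
      refine ⟨_, hcon, ?_⟩
      rw [hrg, Subgroup.coe_mul, hh]
      group
    · change (h : G) * rp H z = y
      rw [hh]
      group
  · intro B hB
    constructor
    · intro x
      have h1 := hB (x : G) 1
      refine (h1.preimage (f := fun h : H => (h : G)) Subtype.val_injective.injOn).subset ?_
      rintro h ⟨hh1, hh2⟩
      refine ⟨⟨hh1, fun hc => hh2 ?_⟩, ?_⟩
      · exact hc
      · simp
    · intro hd z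
      refine (hB (rp H z)⁻¹ z).subset ?_
      rintro y ⟨⟨hy1, hy2⟩, hyz⟩
      have hr : rp H y = rp H z := rp_congr H hyz
      obtain ⟨h, hhA, hh⟩ := (mem_EX H A y).1 hy1
      rw [hr] at hh
      refine ⟨⟨hy2, fun hc => ?_⟩, hyz⟩
      rw [← hh] at hc
      exact Set.disjoint_left.1 hd hhA hc
  · intro hA
    have hr : rp H (1 : G) ∈ H := by
      have h := H.inv_mem (rp_mem H 1)
      simpa using h
    have hinj : Function.Injective (fun h : H => (h : G) * rp H 1) := by
      intro a b hab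
      exact Subtype.ext (mul_right_cancel hab)
    refine (hA.image hinj.injOn).mono ?_
    rintro y ⟨h, hhA, rfl⟩
    have hm : (h : G) * rp H 1 ∈ H := H.mul_mem h.2 hr
    refine ⟨⟨h, hhA, ?_⟩, hm⟩
    have : rp H ((h : G) * rp H 1) = rp H 1 := by
      apply rp_congr H
      simpa using hm
    change (h : G) * rp H ((h : G) * rp H 1) = (h : G) * rp H 1
    rw [this]
  · intro A' hd
    rw [Set.disjoint_left]
    intro y hy hy'
    obtain ⟨h, hhA, hh⟩ := (mem_EX H A y).1 hy
    obtain ⟨h', hhA', hh'⟩ := (mem_EX H A' y).1 hy'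
    have : h = h' := Subtype.ext (hh.trans hh'.symm)
    subst this
    exact Set.disjoint_left.1 hd hhA hhA'

end Pool.Agent.MPcc2398.OE
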