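import Pool.Agent.Lib.MP_cc2398_al.OE.Spec

/-!
# MP_cc2398_al, project OE: a hyperbolic element
-/

set_option autoImplicit false

namespace Pool.Agent.MPcc2398.OE

open Pool.Agent.MPcc2398

universe u

/-- **Hy** -/
theorem vHy (hTy : S_Ty.{u}) : S_Hy.{u} := by
  intro X _ hfg C hC hinf hdis hcov
  obtain ⟨Φ, hΦ, hT⟩ := hTy X hfg C hC
  by_cases h : ∃ g : X, g ∉ Φ ∧ ∃ i j : Fin 3, i ≠ j ∧ g⁻¹ ∈ C i ∧ g ∈ C j
  · obtain ⟨g, hg, i, j, hij, h1, h2⟩ := h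
    exact ⟨g, i, j, hij, hT g hg i j h1 h2⟩
  · have hself : ∀ g : X, g ∉ Φ → ∀ j : Fin 3, g ∈ C j → Mp g (C j) (C j) := by
      intro g hg j hj
      have h1 : g⁻¹ ∈ ⋃ i, C i := by
        rw [hcov]
        exact Set.mem_univ _
      obtain ⟨i, hi⟩ := Set.mem_iUnion.1 h1
      have hij : i = j := by
        by_contra hne
        exact h ⟨g, hg, i, j, hne, hi, hj⟩
      rw [hij] at hi
      exact hT g hg j j hi hj
    obtain ⟨g, hg0, hgΦ⟩ := (hinf 0).exists_notMem_finite hΦ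
    obtain ⟨k, hk1, hkΦ⟩ := (hinf 1).exists_notMem_finite hΦ
    refine ⟨g * k, 1, 0, by decide, ?_⟩
    intro y hy
    rw [mul_assoc]
    apply hself g hgΦ 0 hg0
    have h2 : k * y ∈ C 1 := hself k hkΦ 1 hk1 y hy
    exact fun h3 => Set.disjoint_left.1 (hdis 0 1 (by decide)) h3 h2

end Pool.Agent.MPcc2398.OE
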