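import Pool.Agent.Lib.MP_cc2398_al.OE.Spec

/-!
# MP_cc2398_al, project OE: no three ends (`S_Inf`)

The Schottky pairs of `H` (`S_Sch`) are transported to `G` (`S_PM`, `S_EX`); the ping-pong lemma (`S_PP`) gives a free
subgroup with infinitely many cosets of `H`, against `S_Fin`.
-/

set_option autoImplicit false

namespace Pool.Agent.MPcc2398.OE

open Pool.Agent.MPcc2398

universe u

private theorem sm_empty {G : Type u} [Group G] (H : Subgroup G) {E : Set G} (hE : E = ∅) : Sm H E := by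
  intro g
  subst hE
  simp

theorem vInf (hSch : S_Sch.{u}) (hPM : S_PM.{u}) (hPP : S_PP.{u}) (hFin : S_Fin.{u}) (hDC : S_DC.{u})
    (hEX : S_EX.{u}) (_hSm : S_Sm.{u}) : S_Inf.{u} := by
  intro G _ H hTB hFG hex
  obtain ⟨C, hAI, hInf, hDis⟩ := hex
  obtain ⟨hIn, g, hg⟩ := hDC G H hTB
  obtain ⟨t, P, M, hS⟩ := hSch H hFG C hAI hInf hDis
  have hne : ∀ i : ℕ, i ≠ i + 1 := fun i => Nat.ne_of_lt (Nat.lt_succ_self i)
  have hstep : ∀ i : ℕ, ∃ a ∈ H, ∃ b ∈ H,
      Sm H {y | y ∉ EX H (M i) ∧ (a * g i * b) * y ∉ EX H (P i)} := by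
    intro i
    obtain ⟨z, hz⟩ := (hS.infP (i + 1)).nonempty
    refine hPM G H hIn hFG (P i) (M i) (t i) (t (i + 1)) z (g i) (hS.aiP i) (hS.aiM i)
      (hS.infP i).nonempty (hS.disPM i i) (hS.map i) ?_ ?_ ?_
    · intro hz'
      exact Set.disjoint_left.1 (hS.disP i (i + 1) (hne i)) hz' hz
    · intro hz'
      exact Set.disjoint_left.1 (hS.disPM (i + 1) i) hz hz'
    · intro y hy hy'
      have h1 : y ∉ M (i + 1) := fun h => Set.disjoint_left.1 (hS.disM i (i + 1) (hne i)) hy h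
      have h2 : t (i + 1) * y ∈ P (i + 1) := hS.map (i + 1) y h1
      exact Set.disjoint_left.1 (hS.disPM (i + 1) i) h2 hy'
  choose a ha b hb hSm using hstep
  refine hFin G H hTB (fun i => a i * g i * b i) ?_ ?_
  · intro i j hij hmem
    refine hg i j hij ((a j)⁻¹ * a i) (H.mul_mem (H.inv_mem (ha j)) (ha i))
      (b i * ((a i * g i * b i)⁻¹ * (a j * g j * b j)) * (b j)⁻¹)
      (H.mul_mem (H.mul_mem (hb i) hmem) (H.inv_mem (hb j))) ?_
    group
  · refine hPP G H hIn (fun i => a i * g i * b i) (fun i => EX H (P i)) (fun i => EX H (M i)) ?_ ?_ ?_ ?_ hSm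
    · intro i
      exact (hEX G H (P i)).2.2.2.2.1 (hS.infP i)
    · intro i j
      exact sm_empty H (Set.disjoint_iff_inter_eq_empty.1 ((hEX G H (P i)).2.2.2.2.2 (M j) (hS.disPM i j)))
    · intro i j hij
      exact sm_empty H (Set.disjoint_iff_inter_eq_empty.1
        ((hEX G H (P i)).2.2.2.2.2 (P j) (hS.disP i j hij)))
    · intro i j hij
      exact sm_empty H (Set.disjoint_iff_inter_eq_empty.1
        ((hEX G H (M i)).2.2.2.2.2 (M j) (hS.disM i j hij)))

end Pool.Agent.MPcc2398.OE
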