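import Pool.Agent.Lib.MP_cc2398_al.OE.Spec

/-!
# MP_cc2398_al, project OE, module N (helper6): nestedness of translates of almost invariant sets
-/

set_option autoImplicit false

namespace Pool.Agent.MPcc2398.OE

open Pool.Agent.MPcc2398

universe u

/-- the points outside of `A` which are moved into `A` -/
private theorem Naux_co {X : Type u} [Group X] {A : Set X} (hA : AI A) (x : X) :
    {y | y ∉ A ∧ y * x ∈ A}.Finite := by
  refine ((hA x⁻¹).image (fun z => z * x⁻¹)).subset ?_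
  rintro y ⟨h1, h2⟩
  refine ⟨y * x, ⟨h2, ?_⟩, ?_⟩
  · rw [mul_inv_cancel_right]
    exact h1
  · exact mul_inv_cancel_right y x

theorem vN : S_N.{u} := by
  intro X _ hX A C hA hC
  obtain ⟨S, hS, hSf⟩ := Group.fg_iff.1 hX
  -- symmetric generating set
  have hTf : (S ∪ S⁻¹).Finite := hSf.union hSf.inv
  -- the boundary
  obtain ⟨E, hE⟩ : ∃ E : Set X, E = (⋃ s ∈ S ∪ S⁻¹, {y | y ∈ A ∧ y * s ∉ A}) ∪
      ⋃ s ∈ S ∪ S⁻¹, {y | y ∉ C ∧ y * s ∈ C} := ⟨_, rfl⟩
  have hEf : E.Finite := by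
    rw [hE]
    exact (hTf.biUnion fun s _ => hA s).union (hTf.biUnion fun s _ => Naux_co hC s)
  refine ⟨(⋃ b ∈ E, {y | y ∈ C ∧ y * b ∉ C}) ∪ (⋃ b ∈ E, {y | y ∉ A ∧ y * b ∈ A})⁻¹,
    (hEf.biUnion fun b _ => hC b).union (hEf.biUnion fun b _ => Naux_co hA b).inv, ?_⟩
  intro g hg hgA hgC
  rw [Set.mem_union, not_or] at hg
  have h1 : ∀ b ∈ E, g * b ∈ C := by
    intro b hb
    by_contra hc
    exact hg.1 (Set.mem_biUnion hb ⟨hgC, hc⟩)
  have h2 : ∀ b ∈ E, g⁻¹ * b ∉ A := by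
    intro b hb hc
    apply hg.2
    rw [Set.mem_inv]
    exact Set.mem_biUnion hb ⟨hgA, hc⟩
  have hstep : ∀ s ∈ S ∪ S⁻¹, ∀ y, g⁻¹ * y ∈ A ∧ y ∉ C → g⁻¹ * (y * s) ∈ A ∧ y * s ∉ C := by
    rintro s hs y ⟨h3, h4⟩
    constructor
    · by_contra hc
      have h5 : g⁻¹ * y ∈ E := by
        rw [hE]
        refine Or.inl (Set.mem_biUnion hs ⟨h3, ?_⟩)
        rw [mul_assoc]
        exact hc
      have h6 := h1 _ h5
      rw [mul_inv_cancel_left] at h6
      exact h4 h6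
    · intro hc
      have h5 : y ∈ E := by
        rw [hE]
        exact Or.inr (Set.mem_biUnion hs ⟨h4, hc⟩)
      exact h2 y h5 h3
  intro a ha
  by_contra hc
  have hall : ∀ x ∈ Subgroup.closure S, g⁻¹ * (g * a * x) ∈ A ∧ g * a * x ∉ C := by
    intro x hx
    induction hx using Subgroup.closure_induction_right with
    | one =>
      rw [mul_one]
      refine ⟨?_, hc⟩
      rw [inv_mul_cancel_left]
      exact ha
    | mul_right x hx s hs ih =>
      rw [← mul_assoc (g * a)]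
      exact hstep s (Or.inl hs) _ ih
    | mul_inv_cancel x hx s hs ih =>
      rw [← mul_assoc (g * a)]
      exact hstep s⁻¹ (Or.inr (Set.inv_mem_inv.2 hs)) _ ih
  have h7 := (hall ((g * a)⁻¹ * g) (by rw [hS]; exact Subgroup.mem_top _)).2
  rw [mul_inv_cancel_left] at h7
  exact h7 hgC

end Pool.Agent.MPcc2398.OE
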