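import Pool.Agent.Lib.MP_cc2398_al.OE.Spec

/-!
# MP_cc2398_al, project OE: a group does not fix an end (counting)
-/

set_option autoImplicit false

namespace Pool.Agent.MPcc2398.OE

open Pool.Agent.MPcc2398

universe u

namespace NStaux

theorem big (K c : ℕ) : ∃ n : ℕ, K + n * c < 2 ^ n := by
  refine ⟨4 * (K + c + 1), ?_⟩
  have h1 : K + c + 1 < 2 ^ (K + c + 1) := Nat.lt_two_pow_self
  have h2 : 2 ^ (4 * (K + c + 1)) = (2 ^ (K + c + 1)) ^ 4 := by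
    rw [← pow_mul, mul_comm]
  rw [h2]
  generalize 2 ^ (K + c + 1) = q at h1
  have h3 : K + 4 * (K + c + 1) * c < 4 * (q * q) := by
    have h4 : (K + c + 1) * (c + 1) ≤ q * q := Nat.mul_le_mul (by omega) (by omega)
    have h5 : 4 * ((K + c + 1) * (c + 1)) = 4 * (K + c + 1) * c + 4 * (K + c + 1) := by ring
    omega
  have h4 : 2 ≤ q := by omega
  have h5 : 4 * (q * q) ≤ q ^ 4 := by
    have h6 : 4 ≤ q * q := by nlinarith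
    calc 4 * (q * q) ≤ (q * q) * (q * q) := Nat.mul_le_mul_right _ h6
      _ = q ^ 4 := by ring
  exact lt_of_lt_of_le h3 h5

theorem ai_compl {X : Type u} [Group X] {A : Set X} (h : AI A) : AI Aᶜ := by
  intro x
  refine ((h x⁻¹).image fun z => z * x⁻¹).subset ?_
  rintro y ⟨h1, h2⟩
  refine ⟨y * x, ⟨?_, ?_⟩, ?_⟩
  · exact not_not.1 h2
  · rw [mul_inv_cancel_right]
    exact h1
  · exact mul_inv_cancel_right y x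

/-- One half of the nestedness. -/
theorem half {X : Type u} [Group X] {D C : Set X} {y w w' : X} (hDC : ∀ x, x ∈ D ∨ x ∈ C)
    (hCD : ∀ x ∈ C, x ∉ D) (hy : y = w' * w⁻¹) (h1 : y ∈ D → ∀ a ∈ D, y * a ∈ D)
    (h2 : y ∈ C → ∀ a ∈ D, y * a ∈ C) {d : X} (hd : d ∈ D) (hw : ∀ d ∈ D, w * d ∈ D)
    (hw' : ∀ d ∈ D, w' * d ∈ D) : ∀ x, w * x ∈ D → w' * x ∈ D := by
  have h3 : ∀ x, y * (w * x) = w' * x := by
    intro x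
    rw [hy, mul_assoc, inv_mul_cancel_left]
  intro x hx
  rcases hDC y with h | h
  · rw [← h3]
    exact h1 h _ hx
  · exfalso
    have h4 := h2 h _ (hw d hd)
    rw [h3] at h4
    exact hCD _ h4 (hw' d hd)

end NStaux

open NStaux in
theorem vNSt (hN : S_N.{u}) (hWd : S_Wd.{u}) : S_NSt.{u} := by
  classical
  intro X _ hFG C₁ C₂ C₃ h1 h2 h3 i1 i2 i3 d12 d13 d23 hU
  by_contra hfin
  rw [Set.not_infinite] at hfin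
  have hD : AI C₁ᶜ := ai_compl h1
  have hC2 : C₂ ⊆ C₁ᶜ := fun x hx hx' => Set.disjoint_left.1 d12 hx' hx
  have hC3 : C₃ ⊆ C₁ᶜ := fun x hx hx' => Set.disjoint_left.1 d13 hx' hx
  obtain ⟨F2, hF2, k2⟩ := hN X hFG C₁ᶜ C₂ hD h2
  obtain ⟨F3, hF3, k3⟩ := hN X hFG C₁ᶜ C₃ hD h3
  obtain ⟨FD, hFD, kD⟩ := hN X hFG C₁ᶜ C₁ᶜ hD hD
  obtain ⟨F1, hF1, k1⟩ := hN X hFG C₁ᶜ C₁ hD h1
  set F0 : Set X := (((F2 ∪ F3) ∪ FD) ∪ F1) ∪ {g | g ∉ C₁ ∧ g⁻¹ ∉ C₁} with hF0def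
  have hF0 : F0.Finite := (((hF2.union hF3).union hFD).union hF1).union hfin
  set F : Set X := F0 ∪ (fun g => g⁻¹) '' F0 with hFdef
  have hF : F.Finite := hF0.union (hF0.image _)
  have hFinv : ∀ g, g ∉ F → g⁻¹ ∉ F := by
    intro g hg hg'
    apply hg
    rcases hg' with hg' | ⟨z, hz, hz'⟩
    · exact Or.inr ⟨g⁻¹, hg', inv_inv g⟩
    · have hzz : z = g := inv_injective hz'
      rw [← hzz]
      exact Or.inl hz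
  have e2 : ∀ g, g ∉ F → g ∉ F2 := fun g hg h => hg (Or.inl (Or.inl (Or.inl (Or.inl (Or.inl h)))))
  have e3 : ∀ g, g ∉ F → g ∉ F3 := fun g hg h => hg (Or.inl (Or.inl (Or.inl (Or.inl (Or.inr h)))))
  have eD : ∀ g, g ∉ F → g ∉ FD := fun g hg h => hg (Or.inl (Or.inl (Or.inl (Or.inr h))))
  have e1 : ∀ g, g ∉ F → g ∉ F1 := fun g hg h => hg (Or.inl (Or.inl (Or.inr h)))
  have e0 : ∀ g, g ∉ F → g ∈ C₁ᶜ → g⁻¹ ∉ C₁ᶜ := fun g hg h h' => hg (Or.inl (Or.inr ⟨h, h'⟩))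
  obtain ⟨a, ha, haF⟩ := (i2.sdiff hF).nonempty
  obtain ⟨b, hb, hbF⟩ := (i3.sdiff hF).nonempty
  have ha' : ∀ d ∈ C₁ᶜ, a * d ∈ C₂ := k2 a (e2 a haF) (e0 a haF (hC2 ha)) ha
  have hb' : ∀ d ∈ C₁ᶜ, b * d ∈ C₃ := k3 b (e3 b hbF) (e0 b hbF (hC3 hb)) hb
  set c : ℕ := max {z | z ∈ C₁ᶜ ∧ z * a⁻¹ ∉ C₁ᶜ}.ncard {z | z ∈ C₁ᶜ ∧ z * b⁻¹ ∉ C₁ᶜ}.ncard with hc
  obtain ⟨d₀, hd₀⟩ : (C₁ᶜ).Nonempty := ⟨a, hC2 ha⟩
  obtain ⟨d₁, hd₁⟩ := i1.nonempty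
  have hS1 : {z | z ∉ C₁ᶜ ∧ z * d₀ ∈ C₁ᶜ}.Finite := by
    refine (h1 d₀).subset ?_
    rintro z ⟨hz, hz'⟩
    exact ⟨not_not.1 hz, hz'⟩
  have hS3 : {v | v ∈ C₁ᶜ ∧ v * d₁ ∉ C₁ᶜ}.Finite := hD d₁
  obtain ⟨n, hn⟩ := big (F.ncard + {z | z ∉ C₁ᶜ ∧ z * d₀ ∈ C₁ᶜ}.ncard +
    {v | v ∈ C₁ᶜ ∧ v * d₁ ∉ C₁ᶜ}.ncard) c
  obtain ⟨T, hT, hTD, hTc⟩ := hWd X C₁ᶜ C₂ C₃ a b c ⟨d₀, hd₀⟩ hD hC2 hC3 d23 ha' hb'
    (le_max_left _ _) (le_max_right _ _) n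
  have hTne : T.Nonempty := by
    rw [← Finset.card_pos, hT]
    exact Nat.two_pow_pos n
  obtain ⟨s, hs⟩ := Finset.exists_maximalFor (fun w : X => {x | w * x ∈ C₁ᶜ}) T hTne
  have hsT : s ∈ T := hs.1
  have hDC : ∀ x, x ∈ C₁ᶜ ∨ x ∈ C₁ := fun x => (em (x ∈ C₁)).symm
  have hCD : ∀ x ∈ C₁, x ∉ C₁ᶜ := fun x hx hx' => hx' hx
  have hmain : ∀ w ∈ T, w * s⁻¹ ∈ F ∨ ∀ x, w * x ∈ C₁ᶜ → s * x ∈ C₁ᶜ := by
    intro w hw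
    by_cases hF' : w * s⁻¹ ∈ F
    · exact Or.inl hF'
    · right
      by_cases hinv : (w * s⁻¹)⁻¹ ∈ C₁ᶜ
      · have h4 : (w * s⁻¹)⁻¹ = s * w⁻¹ := by group
        have h5 := hFinv _ hF'
        rw [h4] at h5 hinv
        have h6 := e0 _ h5 hinv
        exact half hDC hCD rfl (kD _ (eD _ h5) h6) (k1 _ (e1 _ h5) h6) hd₀ (hTD w hw) (hTD s hsT)
      · have h4 := half hDC hCD (w := s) (w' := w) rfl (kD _ (eD _ hF') hinv)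
          (k1 _ (e1 _ hF') hinv) hd₀ (hTD s hsT) (hTD w hw)
        exact hs.2 hw h4
  have hsub : (T : Set X) ⊆ (((fun z => z * s) '' F ∪ {z | z ∉ C₁ᶜ ∧ z * d₀ ∈ C₁ᶜ}) ∪
      {z | z ∈ C₁ᶜ ∧ z * s⁻¹ ∉ C₁ᶜ}) ∪ (fun v => v * s) '' {v | v ∈ C₁ᶜ ∧ v * d₁ ∉ C₁ᶜ} := by
    intro w hw
    rcases hmain w hw with h4 | h4
    · exact Or.inl (Or.inl (Or.inl ⟨w * s⁻¹, h4, inv_mul_cancel_right w s⟩))
    · by_cases h5 : w ∈ C₁ᶜ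
      · by_cases h6 : w * s⁻¹ ∈ C₁ᶜ
        · refine Or.inr ⟨w * s⁻¹, ⟨h6, ?_⟩, inv_mul_cancel_right w s⟩
          intro h7
          have h8 := h4 (s⁻¹ * d₁) (by rw [← mul_assoc]; exact h7)
          rw [mul_inv_cancel_left] at h8
          exact h8 hd₁
        · exact Or.inl (Or.inr ⟨h5, h6⟩)
      · exact Or.inl (Or.inl (Or.inr ⟨h5, hTD w hw d₀ hd₀⟩))
  have hfin2 : {z | z ∈ C₁ᶜ ∧ z * s⁻¹ ∉ C₁ᶜ}.Finite := hD s⁻¹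
  have hcard := Set.ncard_le_ncard hsub
    ((((hF.image _).union hS1).union hfin2).union (hS3.image _))
  rw [Set.ncard_coe_finset, hT] at hcard
  have u1 := Set.ncard_union_le (((fun z => z * s) '' F ∪ {z | z ∉ C₁ᶜ ∧ z * d₀ ∈ C₁ᶜ}) ∪
      {z | z ∈ C₁ᶜ ∧ z * s⁻¹ ∉ C₁ᶜ}) ((fun v => v * s) '' {v | v ∈ C₁ᶜ ∧ v * d₁ ∉ C₁ᶜ})
  have u2 := Set.ncard_union_le ((fun z => z * s) '' F ∪ {z | z ∉ C₁ᶜ ∧ z * d₀ ∈ C₁ᶜ})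
      {z | z ∈ C₁ᶜ ∧ z * s⁻¹ ∉ C₁ᶜ}
  have u3 := Set.ncard_union_le ((fun z => z * s) '' F) {z | z ∉ C₁ᶜ ∧ z * d₀ ∈ C₁ᶜ}
  have u4 := Set.ncard_image_le (f := fun z => z * s) hF
  have u5 := Set.ncard_image_le (f := fun v => v * s) hS3
  have u6 := hTc s hsT
  omega

end Pool.Agent.MPcc2398.OE
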