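import Pool.Agent.Lib.MP_cc2398_al.OE.Spec
import Pool.Agent.Lib.MP_cc2398_al.All

/-!
# MP_cc2398_al, project OE: the theorem (`S_One`)

A finitely generated subgroup `K` commensurable with a point stabilizer has at most one end: by `S_Inf` (for the pair
`(G, K)`) it does not have three ends, and if it has two ends then it is virtually cyclic (`S_Two`), which is excluded
by `Main`.
-/

set_option autoImplicit false

namespace Pool.Agent.MPcc2398.OE

open Pool.Agent.MPcc2398

universe u

/-- `TB` depends only on the commensurability class of the stabilizer. -/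
private theorem tb_of_co {G : Type u} [Group G] {H K : Subgroup G} (hTB : TB H) (hCo : Co H K) : TB K := by
  refine ⟨?_, fun L hL => (aCom G H hTB).2.2.1 K L hCo hL, hTB.join, hTB.cyc⟩
  by_contra h
  have h1 : K.relIndex ⊤ ≠ 0 := by rwa [Subgroup.relIndex_top_right]
  have h2 : H.relIndex ⊤ ≠ 0 := Subgroup.relIndex_ne_zero_trans hCo.2 h1
  rw [Subgroup.relIndex_top_right] at h2
  exact h2 hTB.idx

private theorem zpowers_subgroupOf {G : Type u} [Group G] (K : Subgroup G) (t : K) :
    (Subgroup.zpowers (t : G)).subgroupOf K = Subgroup.zpowers t := by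
  ext x
  rw [Subgroup.mem_subgroupOf, Subgroup.mem_zpowers_iff, Subgroup.mem_zpowers_iff]
  constructor
  · rintro ⟨n, hn⟩
    exact ⟨n, Subtype.ext (by simpa using hn)⟩
  · rintro ⟨n, hn⟩
    exact ⟨n, by rw [← hn]; simp⟩

/-- A finitely generated subgroup of a locally finite group is finite. -/
private theorem finite_of_lf {G : Type u} [Group G] (hLF : LF (⊤ : Subgroup G)) (K : Subgroup G)
    (hFG : Group.FG K) : Finite K := by
  obtain ⟨S, hS⟩ := (Group.fg_iff_subgroup_fg K).1 hFG
  have h := hLF S (by simp)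
  rw [hS] at h
  exact h.to_subtype

theorem vOne (hInf : S_Inf.{u}) (hTwo : S_Two.{u}) : S_One.{u} := by
  intro G _ H hTB hcore K hCo hFG A hA
  by_contra hcon
  obtain ⟨hA1, hA2⟩ := not_or.1 hcon
  obtain ⟨c1, c2, c3, c4, c5, c6, c7⟩ := aCom G H hTB
  obtain ⟨t, ht⟩ := hTwo K hFG A hA hA1 hA2 (hInf G K (tb_of_co hTB hCo) hFG)
  have hZ : (Subgroup.zpowers (t : G)).relIndex K ≠ 0 := by
    rw [Subgroup.relIndex, zpowers_subgroupOf]
    exact ht
  have hCoZ : Co H (Subgroup.zpowers (t : G)) :=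
    c2 _ (hTB.cyc t) (Subgroup.relIndex_ne_zero_trans hZ hCo.1)
  by_cases hLF : LF (⊤ : Subgroup G)
  · have : Finite K := finite_of_lf hLF K hFG
    exact hA1 (Set.toFinite A)
  · obtain ⟨R, hRn, hRt, hRLF, hRmax, hst⟩ := aMain G H hTB hcore hLF
    obtain ⟨b1, b2, b3, b4⟩ := hst _ hCoZ
    have hZR : Subgroup.zpowers (t : G) ≤ R := by
      refine b3 _ le_rfl (inv_self _) (fun a ha b hb => ?_)
      obtain ⟨m, rfl⟩ := Subgroup.mem_zpowers_iff.1 ha
      obtain ⟨n, rfl⟩ := Subgroup.mem_zpowers_iff.1 hb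
      have h1 : (t : G) ^ m * (t : G) ^ n * ((t : G) ^ m)⁻¹ * ((t : G) ^ n)⁻¹ = 1 := by
        rw [← zpow_add, ← zpow_neg, ← zpow_neg, ← zpow_add, ← zpow_add]
        have h2 : m + n + -m + -n = 0 := by ring
        rw [h2, zpow_zero]
      rw [h1]
      exact R.one_mem
    apply hRt
    rw [Subgroup.eq_top_iff']
    intro g
    apply b1 g
    intro k hk
    exact R.mul_mem (hRn.conj_mem k (hZR hk) g) (R.inv_mem (hZR hk))

end Pool.Agent.MPcc2398.OE
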