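import Pool.Agent.Lib.MP_cc2398_al.OE.Spec

/-!
# MP_cc2398_al, project OE: one Schottky element in a given double coset (`S_PM`)
-/

set_option autoImplicit false

namespace Pool.Agent.MPcc2398.OE

open Pool.Agent.MPcc2398

universe u

namespace PMaux

variable {G : Type u} [Group G] {H : Subgroup G}

theorem mem_rp (y : G) : y * (rp H y)⁻¹ ∈ H := by
  have h := Quotient.mk_out (s := QuotientGroup.rightRel H) y
  exact QuotientGroup.rightRel_apply.1 h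

theorem ex_mono {A B : Set H} (h : ∀ x ∈ A, x ∈ B) {y : G} (hy : y ∈ EX H A) : y ∈ EX H B := by
  obtain ⟨x, hx, e⟩ := hy
  exact ⟨x, h x hx, e⟩

theorem ex_compl {A : Set H} {y : G} (hy : y ∉ EX H A) : y ∈ EX H {x | x ∉ A} := by
  refine ⟨⟨y * (rp H y)⁻¹, mem_rp y⟩, ?_, ?_⟩
  · intro hA
    exact hy ⟨_, hA, by simp⟩
  · simp

theorem ex_inter {A B : Set H} {y : G} (hA : y ∈ EX H A) (hB : y ∈ EX H B) : ∃ x, x ∈ A ∧ x ∈ B := by
  obtain ⟨x, hx, e⟩ := hA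
  obtain ⟨x', hx', e'⟩ := hB
  have h1 : (x : G) * rp H y = (x' : G) * rp H y := e.trans e'.symm
  have h2 : (x : G) = (x' : G) := mul_right_cancel h1
  have h3 : x = x' := Subtype.ext h2
  exact ⟨x, hx, h3 ▸ hx'⟩

theorem sm_pre (hSm : S_Sm.{u}) (hI : Inert H) {E : Set G} (hE : Sm H E) (k : G) : Sm H {y | k * y ∈ E} := by
  have h := (hSm G H hI E E hE).2.2.2 k⁻¹
  rw [inv_inv] at h
  exact h

theorem sm_mono (hSm : S_Sm.{u}) (hI : Inert H) {E F : Set G} (hE : Sm H E) (h : F ⊆ E) : Sm H F :=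
  (hSm G H hI E F hE).1 h

/-- Right invariance modulo `Sm H` of `{y | k y ∈ EX H M}`. -/
theorem inv_B (hSm : S_Sm.{u}) (hEX : S_EX.{u}) (hI : Inert H) {M : Set H} (hM : AI M) (k g : G) :
    Sm H {y | y ∈ {v : G | k * v ∈ EX H M} ∧ y * g ∉ {v : G | k * v ∈ EX H M}} := by
  have h := sm_pre hSm hI ((hEX G H M).2.2.1 hM g) k
  refine sm_mono hSm hI h ?_
  intro y hy
  refine ⟨hy.1, ?_⟩
  intro h2
  apply hy.2
  change k * (y * g) ∈ EX H M
  rw [← mul_assoc]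
  exact h2

/-- The final step. -/
theorem fin (hSm : S_Sm.{u}) (hEX : S_EX.{u}) (hI : Inert H) {P M : Set H} (t u : H) (g : G) (hM : AI M)
    (hMp : Mp t M P) (l : ℕ) (hl : ∀ a ∈ P, t ^ l * a ∉ {h : H | (h : G) ∈ {v : G | ((u : G) * g) * v ∈ EX H M}}) :
    ∃ a ∈ H, ∃ b ∈ H, Sm H {y | y ∉ EX H M ∧ (a * g * b) * y ∉ EX H P} := by
  have key : ∀ y : G, y ∉ EX H M → (t : G) * y ∈ EX H P := by
    intro y hy
    rw [(hEX G H P).2.1 t y]
    exact ex_mono (fun x hx => hMp x hx) (ex_compl hy)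
  obtain ⟨Pl, hPl⟩ : ∃ Pl : Set H, Pl = {h : H | (t ^ l)⁻¹ * h ∈ P} := ⟨_, rfl⟩
  have hdis : Disjoint Pl {h : H | (h : G) ∈ {v : G | ((u : G) * g) * v ∈ EX H M}} := by
    rw [Set.disjoint_left]
    intro h h1 h2
    rw [hPl] at h1
    have h3 := hl _ h1
    rw [mul_inv_cancel_left] at h3
    exact h3 h2
  have hsm := ((hEX G H Pl).2.2.2.1 _ (inv_B hSm hEX hI hM ((u : G) * g))).2 hdis
  refine ⟨(t : G) * u, (t * u).2, ((t ^ (l + 1) : H) : G), (t ^ (l + 1)).2, ?_⟩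
  refine sm_mono hSm hI (sm_pre hSm hI hsm ((t ^ (l + 1) : H) : G)) ?_
  intro y hy
  refine ⟨?_, ?_⟩
  · rw [(hEX G H Pl).2.1 (t ^ (l + 1)) y]
    refine ex_mono ?_ (ex_compl hy.1)
    intro x hx
    change t ^ (l + 1) * x ∈ Pl
    rw [hPl]
    change (t ^ l)⁻¹ * (t ^ (l + 1) * x) ∈ P
    rw [pow_succ, mul_assoc, inv_mul_cancel_left]
    exact hMp x hx
  · by_contra hn
    apply hy.2
    have h3 := key _ hn
    have e : (t : G) * u * g * ((t ^ (l + 1) : H) : G) * y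
        = (t : G) * ((u : G) * g * (((t ^ (l + 1) : H) : G) * y)) := by
      simp only [mul_assoc]
    rw [e]
    exact h3

end PMaux

open PMaux in
theorem vPM (_hBas : S_Bas.{u}) (hE : S_E.{u}) (hSm : S_Sm.{u}) (hEX : S_EX.{u}) : S_PM.{u} := by
  intro G _ H hI hFG P M t t' z g hP hM hPn hd hMp hzP hzM ht'
  have ai : ∀ k : G, AI {h : H | (h : G) ∈ {v : G | k * v ∈ EX H M}} := fun k =>
    ((hEX G H M).2.2.2.1 _ (inv_B hSm hEX hI hM k)).1
  obtain ⟨l₁, h₁⟩ := hE H hFG P M _ t z hP hM (ai (((1 : H) : G) * g)) hd hMp hzP hzM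
  obtain ⟨l₂, h₂⟩ := hE H hFG P M _ t z hP hM (ai (((t'⁻¹ : H) : G) * g)) hd hMp hzP hzM
  rcases h₁ (max l₁ l₂) (le_max_left _ _) with h3 | h3
  · rcases h₂ (max l₁ l₂) (le_max_right _ _) with h4 | h4
    · exfalso
      obtain ⟨p, hp⟩ := hPn
      have a1 : ((1 : H) : G) * g * ((t ^ (max l₁ l₂) * p : H) : G) ∈ EX H M := h3 p hp
      have a2 : ((t'⁻¹ : H) : G) * g * ((t ^ (max l₁ l₂) * p : H) : G) ∈ EX H M := h4 p hp
      obtain ⟨w, hw⟩ : ∃ w : G, w = ((t'⁻¹ : H) : G) * g * ((t ^ (max l₁ l₂) * p : H) : G) := ⟨_, rfl⟩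
      rw [← hw] at a2
      have e : ((1 : H) : G) * g * ((t ^ (max l₁ l₂) * p : H) : G) = (t' : G) * w := by
        rw [hw]
        simp [mul_assoc]
      rw [e, (hEX G H M).2.1 t' w] at a1
      obtain ⟨x, hx1, hx2⟩ := ex_inter a1 a2
      exact ht' x hx2 hx1
    · exact PMaux.fin hSm hEX hI t t'⁻¹ g hM hMp _ h4
  · exact PMaux.fin hSm hEX hI t 1 g hM hMp _ h3

end Pool.Agent.MPcc2398.OE
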