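import Pool.Agent.Lib.MP_cc2398_al.OE.Spec

set_option autoImplicit false

namespace Pool.Agent.MPcc2398.OE

open Pool.Agent.MPcc2398

universe u

namespace PPBaux

/-- ultrafilters without small sets -/
def Ult {G : Type u} [Group G] (H : Subgroup G) : Type u :=
  {U : Ultrafilter G // ∀ E : Set G, Sm H E → E ∉ U}

noncomputable def act {G : Type u} [Group G] {H : Subgroup G}
    (hS : ∀ E : Set G, Sm H E → ∀ g : G, Sm H {y | g⁻¹ * y ∈ E}) (g : G) (U : Ult H) : Ult H :=
  ⟨U.1.map (fun y => g * y), fun E hE hm => U.2 {y | g * y ∈ E}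
    (by
      have := hS E hE g⁻¹
      simpa using this) hm⟩

@[reducible] noncomputable def inst {G : Type u} [Group G] {H : Subgroup G}
    (hS : ∀ E : Set G, Sm H E → ∀ g : G, Sm H {y | g⁻¹ * y ∈ E}) : MulAction G (Ult H) where
  smul := act hS
  one_smul := by
    intro U
    apply Subtype.ext
    show U.1.map (fun y => (1 : G) * y) = U.1
    simp
  mul_smul := by
    intro g g' U
    apply Subtype.ext
    show U.1.map (fun y => (g * g') * y) = (U.1.map (fun y => g' * y)).map (fun y => g * y)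
    rw [Ultrafilter.map_map]
    congr 1
    funext y
    simp [mul_assoc]

end PPBaux

open PPBaux in
theorem vPP' (hSm : S_Sm.{u}) : S_PP.{u} := by
  classical
  intro G _ H hI h P M hinf hPM hP hM hmap
  have hempty : Sm H (∅ : Set G) := fun g => by
    have : {y : G | y ∈ (∅ : Set G) ∧ y * g⁻¹ ∈ H} = ∅ := by ext y; simp
    rw [this]
    exact Set.finite_empty
  have hS : ∀ E : Set G, Sm H E → ∀ g : G, Sm H {y | g⁻¹ * y ∈ E} := fun E hE =>
    (hSm G H hI E ∅ hE).2.2.2
  let _ := inst hS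
  have hsm : ∀ (g : G) (U : Ult H) (E : Set G), E ∈ (g • U).1 ↔ {y | g * y ∈ E} ∈ U.1 := fun g U E => Iff.rfl
  have key : Function.Injective (FreeGroup.lift (fun i : ULift.{u} ℕ => h i.down)) := by
    refine FreeGroup.injective_lift_of_ping_pong (fun i : ULift.{u} ℕ => h i.down)
      (X := fun i => {U : Ult H | P i.down ∈ U.1}) (Y := fun i => {U : Ult H | M i.down ∈ U.1}) ?_ ?_ ?_ ?_ ?_ ?_
    · rintro ⟨i⟩
      have hne : (Filter.cofinite ⊓ Filter.principal {y | y ∈ P i ∧ y ∈ H}).NeBot :=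
        (hinf i).cofinite_inf_principal_neBot
      refine ⟨⟨Ultrafilter.of (Filter.cofinite ⊓ Filter.principal {y | y ∈ P i ∧ y ∈ H}), ?_⟩, ?_⟩
      · intro E hE hm
        have hle := Ultrafilter.of_le (Filter.cofinite ⊓ Filter.principal {y | y ∈ P i ∧ y ∈ H})
        have h1 : {y | y ∈ P i ∧ y ∈ H} ∈
            Ultrafilter.of (Filter.cofinite ⊓ Filter.principal {y | y ∈ P i ∧ y ∈ H}) :=
          hle (Filter.mem_inf_of_right (Filter.mem_principal_self _))
        have hf : {y | y ∈ E ∧ y ∈ H}.Finite := by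
          have := hE 1
          simpa using this
        have h2 : {y | y ∈ E ∧ y ∈ H}ᶜ ∈
            Ultrafilter.of (Filter.cofinite ⊓ Filter.principal {y | y ∈ P i ∧ y ∈ H}) :=
          hle (Filter.mem_inf_of_left hf.compl_mem_cofinite)
        have h3 := Filter.inter_mem (Filter.inter_mem h1 hm) h2
        have h4 : ({y | y ∈ P i ∧ y ∈ H} ∩ E) ∩ {y | y ∈ E ∧ y ∈ H}ᶜ = ∅ := by
          ext y
          simp only [Set.mem_inter_iff, Set.mem_compl_iff, Set.mem_empty_iff_false, iff_false]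
          rintro ⟨⟨⟨_, h5⟩, h6⟩, h7⟩
          exact h7 ⟨h6, h5⟩
        rw [h4] at h3
        exact Ultrafilter.empty_notMem h3
      · have hle := Ultrafilter.of_le (Filter.cofinite ⊓ Filter.principal {y | y ∈ P i ∧ y ∈ H})
        have h1 : {y | y ∈ P i ∧ y ∈ H} ∈
            Ultrafilter.of (Filter.cofinite ⊓ Filter.principal {y | y ∈ P i ∧ y ∈ H}) :=
          hle (Filter.mem_inf_of_right (Filter.mem_principal_self _))
        exact Filter.mem_of_superset h1 (fun y hy => hy.1)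
    · rintro ⟨i⟩ ⟨j⟩ hij
      replace hij : i ≠ j := fun h0 => hij (congrArg ULift.up h0)
      rw [Function.onFun, Set.disjoint_left]
      intro U h1 h2
      exact U.2 _ (hP i j hij) (Filter.inter_mem h1 h2)
    · rintro ⟨i⟩ ⟨j⟩ hij
      replace hij : i ≠ j := fun h0 => hij (congrArg ULift.up h0)
      rw [Function.onFun, Set.disjoint_left]
      intro U h1 h2
      exact U.2 _ (hM i j hij) (Filter.inter_mem h1 h2)
    · rintro ⟨i⟩ ⟨j⟩
      rw [Set.disjoint_left]
      intro U h1 h2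
      exact U.2 _ (hPM i j) (Filter.inter_mem h1 h2)
    · rintro ⟨i⟩
      rintro _ ⟨U, hU, rfl⟩
      have h1 : (M i)ᶜ ∈ U.1 := Ultrafilter.compl_mem_iff_notMem.2 hU
      have h2 : {y | y ∉ M i ∧ h i * y ∉ P i}ᶜ ∈ U.1 := Ultrafilter.compl_mem_iff_notMem.2 (U.2 _ (hmap i))
      show {y | h i * y ∈ P i} ∈ U.1
      refine Filter.mem_of_superset (Filter.inter_mem h1 h2) ?_
      rintro y ⟨h3, h4⟩
      by_contra h5
      exact h4 ⟨h3, h5⟩
    · rintro ⟨i⟩
      rintro _ ⟨U, hU, rfl⟩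
      by_contra hV
      apply hU
      have h1 : (M i)ᶜ ∈ ((h i)⁻¹ • U).1 := Ultrafilter.compl_mem_iff_notMem.2 hV
      have h2 : {y | y ∉ M i ∧ h i * y ∉ P i}ᶜ ∈ ((h i)⁻¹ • U).1 :=
        Ultrafilter.compl_mem_iff_notMem.2 (((h i)⁻¹ • U).2 _ (hmap i))
      have h3 := Filter.inter_mem h1 h2
      have h4 : {y | h i * y ∈ P i} ∈ ((h i)⁻¹ • U).1 := by
        refine Filter.mem_of_superset h3 ?_
        rintro y ⟨h5, h6⟩
        by_contra h7
        exact h6 ⟨h5, h7⟩
      have h5 : {y | (h i)⁻¹ * y ∈ {y | h i * y ∈ P i}} ∈ U.1 := h4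
      show P i ∈ U.1
      refine Filter.mem_of_superset h5 ?_
      intro y hy
      simpa using hy
  have hcomp : ⇑(FreeGroup.lift h) = ⇑(FreeGroup.lift (fun i : ULift.{u} ℕ => h i.down)) ∘
      ⇑(FreeGroup.freeGroupCongr (Equiv.ulift.{u}.symm : ℕ ≃ ULift.{u} ℕ)) := by
    have : FreeGroup.lift h = (FreeGroup.lift (fun i : ULift.{u} ℕ => h i.down)).comp
        (FreeGroup.freeGroupCongr (Equiv.ulift.{u}.symm : ℕ ≃ ULift.{u} ℕ)).toMonoidHom := by
      ext i
      simp
    rw [this]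
    rfl
  rw [hcomp]
  exact key.comp (FreeGroup.freeGroupCongr _).injective

end Pool.Agent.MPcc2398.OE
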