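import Pool.Agent.Lib.MP_cc2398_al.OE.Spec

/-!
Infinitely many disjoint Schottky pairs (statement `S_Sch`).
-/

set_option autoImplicit false

namespace Pool.Agent.MPcc2398.OE

open Pool.Agent.MPcc2398

universe u

namespace Schaux

theorem inf_tr {X : Type u} [Group X] {A : Set X} (hA : A.Infinite) (g : X) : {y | g⁻¹ * y ∈ A}.Infinite := by
  intro hfin
  apply hA
  refine (hfin.image fun y => g⁻¹ * y).subset ?_
  intro a ha
  refine ⟨g * a, ?_, ?_⟩
  · change g⁻¹ * (g * a) ∈ A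
    rwa [inv_mul_cancel_left]
  · exact inv_mul_cancel_left g a

theorem third : ∀ i j : Fin 3, ∃ k : Fin 3, k ≠ i ∧ k ≠ j := by decide

/-- The partition. -/
theorem part {X : Type u} [Group X] (hBas : S_Bas.{u}) (C : Fin 3 → Set X) (hC : ∀ i, AI (C i))
    (hinf : ∀ i, (C i).Infinite) (hdis : ∀ i j, i ≠ j → Disjoint (C i) (C j)) :
    ∃ C' : Fin 3 → Set X, (∀ i, AI (C' i)) ∧ (∀ i, (C' i).Infinite) ∧
      (∀ i j, i ≠ j → Disjoint (C' i) (C' j)) ∧ (⋃ i, C' i) = Set.univ := by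
  have h01 : Disjoint (C 0) (C 1) := hdis 0 1 (by decide)
  have h02 : Disjoint (C 0) (C 2) := hdis 0 2 (by decide)
  have h12 : Disjoint (C 1) (C 2) := hdis 1 2 (by decide)
  have d0 : Disjoint (C 0) (C 0 ∪ C 1)ᶜ := by
    rw [Set.disjoint_compl_right_iff_subset]
    exact Set.subset_union_left
  have d1 : Disjoint (C 1) (C 0 ∪ C 1)ᶜ := by
    rw [Set.disjoint_compl_right_iff_subset]
    exact Set.subset_union_right
  have hAI : AI (C 0 ∪ C 1)ᶜ := (hBas X _ _ (hBas X _ _ (hC 0) (hC 1)).2.2.1 (hC 0)).1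
  have hI : ((C 0 ∪ C 1)ᶜ).Infinite := by
    refine (hinf 2).mono ?_
    intro y hy hy2
    rcases hy2 with h | h
    · exact Set.disjoint_left.1 h02 h hy
    · exact Set.disjoint_left.1 h12 h hy
  refine ⟨![C 0, C 1, (C 0 ∪ C 1)ᶜ], ?_, ?_, ?_, ?_⟩
  · intro i
    fin_cases i
    · exact hC 0
    · exact hC 1
    · exact hAI
  · intro i
    fin_cases i
    · exact hinf 0
    · exact hinf 1
    · exact hI
  · intro i j hij
    fin_cases i <;> fin_cases j
    · exact absurd rfl hij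
    · exact h01
    · exact d0
    · exact h01.symm
    · exact absurd rfl hij
    · exact d1
    · exact d0.symm
    · exact d1.symm
    · exact absurd rfl hij
  · rw [Set.eq_univ_iff_forall]
    intro y
    rw [Set.mem_iUnion]
    by_cases h0 : y ∈ C 0
    · exact ⟨0, h0⟩
    · by_cases h1 : y ∈ C 1
      · exact ⟨1, h1⟩
      · exact ⟨2, fun h => h.elim h0 h1⟩

end Schaux

open Schaux in
/-- Infinitely many disjoint Schottky pairs. -/
theorem vSch (hBas : S_Bas.{u}) (hHy : S_Hy.{u}) (hUn : S_Un.{u}) : S_Sch.{u} := by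
  intro X _ hFG C₀ hC₀ hinf₀ hdis₀
  obtain ⟨C, hC, hinf, hdis, hun⟩ := part hBas C₀ hC₀ hinf₀ hdis₀
  obtain ⟨h, i, j, hij, hh⟩ := hHy X hFG C hC hinf hdis hun
  obtain ⟨k, hki, hkj⟩ := third i j
  obtain ⟨u, hu⟩ := hUn X hFG C hC hinf hdis hun k
  -- translates by `u` of the sets different from `C k` are in `C k`
  have f1 : ∀ l, l ≠ k → ∀ y, u⁻¹ * y ∈ C l → y ∈ C k := by
    intro l hl y hy
    have h1 : u⁻¹ * y ∉ C k := fun h2 => Set.disjoint_left.1 (hdis l k hl) hy h2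
    have h2 := hu _ h1
    rwa [mul_inv_cancel_left] at h2
  -- positive powers of `h` map `C k` into `C j`
  have f2 : ∀ (m : ℕ) (y : X), y ∈ C k → h ^ (m + 1) * y ∈ C j := by
    intro m y hy
    induction m with
    | zero =>
      rw [zero_add, pow_one]
      exact hh y fun h2 => Set.disjoint_left.1 (hdis k i hki) hy h2
    | succ m ih =>
      rw [pow_succ', mul_assoc]
      exact hh _ fun h2 => Set.disjoint_left.1 (hdis i j hij) h2 ih
  -- disjoint translates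
  have f3 : ∀ (m n : ℕ), m < n → ∀ y, (h ^ m)⁻¹ * y ∈ C k → (h ^ n)⁻¹ * y ∈ C k → False := by
    intro m n hmn y hm hn
    obtain ⟨d, rfl⟩ : ∃ d, n = m + (d + 1) := ⟨n - m - 1, by omega⟩
    have h1 := f2 d _ hn
    have h2 : h ^ (d + 1) * ((h ^ (m + (d + 1)))⁻¹ * y) = (h ^ m)⁻¹ * y := by
      rw [add_comm m (d + 1), pow_add h (d + 1) m, mul_inv_rev]
      have e : h ^ (d + 1) * ((h ^ m)⁻¹ * (h ^ (d + 1))⁻¹ * y) =
          h ^ (d + 1) * (h ^ m)⁻¹ * (h ^ (d + 1))⁻¹ * y := by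
        simp only [mul_assoc]
      rw [e]
      have c : h ^ (d + 1) * (h ^ m)⁻¹ = (h ^ m)⁻¹ * h ^ (d + 1) :=
        ((Commute.refl h).pow_pow (d + 1) m).inv_right.eq
      rw [c, mul_inv_cancel_right]
    rw [h2] at h1
    exact Set.disjoint_left.1 (hdis k j hkj) hm h1
  have f4 : ∀ (m n : ℕ), m ≠ n → ∀ y, (h ^ m)⁻¹ * y ∈ C k → (h ^ n)⁻¹ * y ∈ C k → False := by
    intro m n hmn y hm hn
    rcases lt_or_gt_of_ne hmn with h1 | h1
    · exact f3 m n h1 y hm hn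
    · exact f3 n m h1 y hn hm
  -- the sets are in the translates of `C k`
  have f5 : ∀ l, l ≠ k → ∀ (m : ℕ) (y : X), (h ^ m * u)⁻¹ * y ∈ C l → (h ^ m)⁻¹ * y ∈ C k := by
    intro l hl m y hy
    refine f1 l hl _ ?_
    rwa [mul_inv_rev, mul_assoc] at hy
  refine ⟨fun m => (h ^ m * u) * h * (h ^ m * u)⁻¹, fun m => {y | (h ^ m * u)⁻¹ * y ∈ C j},
    fun m => {y | (h ^ m * u)⁻¹ * y ∈ C i}, ?_⟩
  refine ⟨fun m => (hBas X _ _ (hC j) (hC j)).2.2.2 _, fun m => (hBas X _ _ (hC i) (hC i)).2.2.2 _,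
    fun m => inf_tr (hinf j) _, fun m => inf_tr (hinf i) _, ?_, ?_, ?_, ?_⟩
  · intro m n
    rw [Set.disjoint_left]
    intro y hy hy'
    by_cases hmn : m = n
    · subst hmn
      exact Set.disjoint_left.1 (hdis i j hij) hy' hy
    · exact f4 m n hmn y (f5 j hkj.symm m y hy) (f5 i hki.symm n y hy')
  · intro m n hmn
    rw [Set.disjoint_left]
    intro y hy hy'
    exact f4 m n hmn y (f5 j hkj.symm m y hy) (f5 j hkj.symm n y hy')
  · intro m n hmn
    rw [Set.disjoint_left]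
    intro y hy hy'
    exact f4 m n hmn y (f5 i hki.symm m y hy) (f5 i hki.symm n y hy')
  · intro m y hy
    change (h ^ m * u)⁻¹ * ((h ^ m * u) * h * (h ^ m * u)⁻¹ * y) ∈ C j
    have e : (h ^ m * u)⁻¹ * ((h ^ m * u) * h * (h ^ m * u)⁻¹ * y) = h * ((h ^ m * u)⁻¹ * y) := by
      group
    rw [e]
    exact hh _ hy

end Pool.Agent.MPcc2398.OE
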