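import Pool.Agent.Lib.MP_cc2398_al.OE.Spec

/-!
# MP_cc2398_al, project OE: two ends (proof of `S_Two`)
-/

set_option autoImplicit false

namespace Pool.Agent.MPcc2398.OE

open Pool.Agent.MPcc2398

universe u

namespace Twoaux

/-- One application of `S_N`. -/
private theorem one (hN : S_N.{u}) {X : Type u} [Group X] (hX : Group.FG X) {D D' : Set X} (hD : AI Dᶜ)
    (hD' : AI D') : ∃ Φ : Set X, Φ.Finite ∧ ∀ g ∉ Φ, g⁻¹ ∈ D → g ∈ D' → ∀ y ∉ D, g * y ∈ D' := by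
  obtain ⟨Φ, hΦ, h⟩ := hN X hX Dᶜ D' hD hD'
  exact ⟨Φ, hΦ, fun g hg h1 h2 y hy => h g hg (fun h3 => h3 h1) h2 y hy⟩

/-- Types. -/
private theorem ty (hB : S_Bas.{u}) (hN : S_N.{u}) {X : Type u} [Group X] (hX : Group.FG X) {C : Set X}
    (hC : AI C) : ∃ Φ : Set X, Φ.Finite ∧ ∀ g ∉ Φ,
      (g⁻¹ ∈ C → g ∈ C → ∀ y ∉ C, g * y ∈ C) ∧ (g⁻¹ ∈ C → g ∉ C → ∀ y ∉ C, g * y ∉ C) ∧
      (g⁻¹ ∉ C → g ∈ C → ∀ y ∈ C, g * y ∈ C) ∧ (g⁻¹ ∉ C → g ∉ C → ∀ y ∈ C, g * y ∉ C) := by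
  have hCc : AI Cᶜ := (hB X C C hC hC).1
  have hCcc : AI Cᶜᶜ := (hB X Cᶜ Cᶜ hCc hCc).1
  obtain ⟨Φ₁, f₁, h₁⟩ := one hN hX (D := C) (D' := C) hCc hC
  obtain ⟨Φ₂, f₂, h₂⟩ := one hN hX (D := C) (D' := Cᶜ) hCc hCc
  obtain ⟨Φ₃, f₃, h₃⟩ := one hN hX (D := Cᶜ) (D' := C) hCcc hC
  obtain ⟨Φ₄, f₄, h₄⟩ := one hN hX (D := Cᶜ) (D' := Cᶜ) hCcc hCc
  refine ⟨Φ₁ ∪ Φ₂ ∪ (Φ₃ ∪ Φ₄), (f₁.union f₂).union (f₃.union f₄), fun g hg => ?_⟩
  simp only [Set.mem_union, not_or] at hg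
  obtain ⟨⟨g₁, g₂⟩, g₃, g₄⟩ := hg
  refine ⟨h₁ g g₁, h₂ g g₂, fun a b y hy => h₃ g g₃ a b y (fun hn => hn hy),
    fun a b y hy => h₄ g g₄ a b y (fun hn => hn hy)⟩

/-- Case (a). -/
private theorem caseA {X : Type u} [Group X] {E : Set X} {g : X} (h1 : g⁻¹ ∉ E) (h2 : g ∈ E)
    (h : ∀ y ∈ E, g * y ∈ E) : ∃ t : X, (∀ y ∈ E, t * y ∈ E) ∧ ∃ z ∈ E, t⁻¹ * z ∉ E := by
  refine ⟨g, h, ?_⟩
  by_cases h3 : (1 : X) ∈ E
  · exact ⟨1, h3, by rwa [mul_one]⟩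
  · exact ⟨g, h2, by rwa [inv_mul_cancel]⟩

/-- The claim. -/
private theorem claim (hB : S_Bas.{u}) (hN : S_N.{u}) {X : Type u} [Group X] (hX : Group.FG X) {C : Set X}
    (hC : AI C) (hi : C.Infinite) (hic : Cᶜ.Infinite) : ∃ E : Set X, (E = C ∨ E = Cᶜ) ∧
      ∃ t : X, (∀ y ∈ E, t * y ∈ E) ∧ ∃ z ∈ E, t⁻¹ * z ∉ E := by
  obtain ⟨Φ, hΦ, hty⟩ := ty hB hN hX hC
  by_cases ha : ∃ g ∉ Φ, g⁻¹ ∈ C ∧ g ∉ C
  · obtain ⟨g, hg, g1, g2⟩ := ha
    exact ⟨Cᶜ, Or.inr rfl, caseA (fun h => h g1) g2 ((hty g hg).2.1 g1 g2)⟩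
  by_cases hb : ∃ g ∉ Φ, g⁻¹ ∉ C ∧ g ∈ C
  · obtain ⟨g, hg, g1, g2⟩ := hb
    exact ⟨C, Or.inl rfl, caseA g1 g2 ((hty g hg).2.2.1 g1 g2)⟩
  have hb' : ∀ g ∉ Φ, (g⁻¹ ∈ C ↔ g ∈ C) := by
    intro g hg
    constructor
    · intro h
      by_contra h'
      exact ha ⟨g, hg, h, h'⟩
    · intro h
      by_contra h'
      exact hb ⟨g, hg, h', h⟩
  have hg1 : ∀ g ∈ C, g ∉ Φ → ∀ y ∉ C, g * y ∈ C := fun g hg hΦ' =>
    (hty g hΦ').1 ((hb' g hΦ').2 hg) hg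
  obtain ⟨h, hhC, hhΦ⟩ := (hic.diff hΦ).nonempty
  have hh : ∀ y ∈ C, h * y ∉ C := (hty h hhΦ).2.2.2 (fun h' => hhC ((hb' h hhΦ).1 h')) hhC
  refine ⟨C, Or.inl rfl, ?_⟩
  by_contra hno
  have key : ∀ g ∈ C, g ∉ Φ → ∀ z ∈ C, g⁻¹ * z ∉ C := by
    intro g hg hgΦ z hz hz'
    apply hno
    refine ⟨g * h, fun y hy => ?_, z, hz, ?_⟩
    · rw [mul_assoc]
      exact hg1 g hg hgΦ _ (hh y hy)
    · intro h3
      have h4 := hh _ h3
      apply h4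
      have : h * ((g * h)⁻¹ * z) = g⁻¹ * z := by group
      rw [this]
      exact hz'
  have hinf : (C \ Φ).Infinite := hi.diff hΦ
  obtain ⟨g₀, hg₀, hg₀Φ⟩ := hinf.nonempty
  obtain ⟨y, hy⟩ := hic.nonempty
  obtain ⟨y', hy'⟩ := hi.nonempty
  have hCc : AI Cᶜ := (hB X C C hC hC).1
  have hfin := hCc (y⁻¹ * y')
  have hsub : (fun g => g₀⁻¹ * g * y) '' (C \ Φ) ⊆ {v | v ∈ Cᶜ ∧ v * (y⁻¹ * y') ∉ Cᶜ} := by
    rintro _ ⟨g, ⟨hg, hgΦ⟩, rfl⟩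
    refine ⟨?_, ?_⟩
    · change g₀⁻¹ * g * y ∉ C
      rw [mul_assoc]
      exact key g₀ hg₀ hg₀Φ _ (hg1 g hg hgΦ y hy)
    · change ¬ (g₀⁻¹ * g * y * (y⁻¹ * y') ∉ C)
      intro h5
      have h6 : g₀ * (g₀⁻¹ * g * y * (y⁻¹ * y')) ∈ C := hg1 g₀ hg₀ hg₀Φ _ h5
      have h7 : g⁻¹ * (g₀ * (g₀⁻¹ * g * y * (y⁻¹ * y'))) ∉ C := key g hg hgΦ _ h6
      apply h7
      have : g⁻¹ * (g₀ * (g₀⁻¹ * g * y * (y⁻¹ * y'))) = y' := by group
      rw [this]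
      exact hy'
  have hinj : Function.Injective (fun g : X => g₀⁻¹ * g * y) := by
    intro a b hab
    have : g₀⁻¹ * a * y = g₀⁻¹ * b * y := hab
    exact mul_left_cancel (mul_right_cancel this)
  exact (hinf.image hinj.injOn) (hfin.subset hsub)

/-- The conclusion. -/
private theorem conc (hB : S_Bas.{u}) {X : Type u} [Group X] {E : Set X} (hE : AI E) (hi : E.Infinite)
    (hic : Eᶜ.Infinite) (h3 : ¬ ∃ C : Fin 3 → Set X, (∀ i, AI (C i)) ∧ (∀ i, (C i).Infinite) ∧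
      ∀ i j, i ≠ j → Disjoint (C i) (C j)) {t z : X} (ht : ∀ y ∈ E, t * y ∈ E) (hz : z ∈ E)
    (hz' : t⁻¹ * z ∉ E) : (Subgroup.zpowers t).index ≠ 0 := by
  have hEc : AI Eᶜ := (hB X E E hE hE).1
  have htE : AI {y | t⁻¹ * y ∈ E} := (hB X E E hE hE).2.2.2 t
  have htEc : AI {y | t⁻¹ * y ∈ E}ᶜ := (hB X _ _ htE htE).1
  have hF : AI (E ∩ {y | t⁻¹ * y ∈ E}ᶜ) := (hB X _ _ hE htEc).2.1
  have hti : {y | t⁻¹ * y ∈ E}.Infinite := by
    have hsub : (fun y => t * y) '' E ⊆ {y | t⁻¹ * y ∈ E} := by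
      rintro _ ⟨y, hy, rfl⟩
      change t⁻¹ * (t * y) ∈ E
      rwa [inv_mul_cancel_left]
    exact (hi.image (mul_right_injective t).injOn).mono hsub
  have hback : ∀ w, w ∉ E → t⁻¹ * w ∉ E := by
    intro w hw hw'
    apply hw
    have := ht _ hw'
    rwa [mul_inv_cancel_left] at this
  -- the difference is finite
  have hFfin : (E ∩ {y | t⁻¹ * y ∈ E}ᶜ).Finite := by
    by_contra hFi
    have hd1 : Disjoint (E ∩ {y | t⁻¹ * y ∈ E}ᶜ) {y | t⁻¹ * y ∈ E} :=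
      Set.disjoint_left.2 fun y h1 h2 => h1.2 h2
    have hd2 : Disjoint (E ∩ {y | t⁻¹ * y ∈ E}ᶜ) Eᶜ := Set.disjoint_left.2 fun y h1 h2 => h2 h1.1
    have hd3 : Disjoint {y | t⁻¹ * y ∈ E} Eᶜ := Set.disjoint_left.2 fun y h1 h2 => hback y h2 h1
    apply h3
    refine ⟨![E ∩ {y | t⁻¹ * y ∈ E}ᶜ, {y | t⁻¹ * y ∈ E}, Eᶜ], ?_, ?_, ?_⟩
    · intro i
      fin_cases i
      · exact hF
      · exact htE
      · exact hEc
    · intro i
      fin_cases i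
      · exact hFi
      · exact hti
      · exact hic
    · intro i j hij
      fin_cases i <;> fin_cases j
      · exact absurd rfl hij
      · exact hd1
      · exact hd2
      · exact hd1.symm
      · exact absurd rfl hij
      · exact hd3
      · exact hd2.symm
      · exact hd3.symm
      · exact absurd rfl hij
  have hneg : ∀ n : ℕ, (t⁻¹) ^ (n + 1) * z ∉ E := by
    intro n
    induction n with
    | zero => simpa using hz'
    | succ n ih =>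
      rw [pow_succ' t⁻¹ (n + 1), mul_assoc]
      exact hback _ ih
  have hpos : ∀ n : ℕ, t ^ n * z ∈ E := by
    intro n
    induction n with
    | zero => simpa using hz
    | succ n ih =>
      rw [pow_succ', mul_assoc]
      exact ht _ ih
  have hord : ¬ IsOfFinOrder t := by
    intro ho
    obtain ⟨n, hn, hn'⟩ := isOfFinOrder_iff_pow_eq_one.1 ho
    obtain ⟨m, rfl⟩ := Nat.exists_eq_succ_of_ne_zero hn.ne'
    have := hneg m
    rw [inv_pow, hn', inv_one, one_mul] at this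
    exact this hz
  have hinj : Function.Injective fun n : ℕ => t ^ n := injective_pow_iff_not_isOfFinOrder.2 hord
  have hinj' : Function.Injective fun n : ℕ => (t⁻¹) ^ n := by
    intro a b hab
    have h1 : (t⁻¹) ^ a = (t⁻¹) ^ b := hab
    rw [inv_pow, inv_pow, inv_inj] at h1
    exact hinj h1
  -- every element is in `t ^ m F`
  have hlow : ∀ y : X, ∃ n : ℕ, (t⁻¹) ^ n * y ∉ E := by
    intro y
    by_contra hno
    push_neg at hno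
    have hfin := hE (y⁻¹ * z)
    have hsub : Set.range (fun n : ℕ => (t⁻¹) ^ (n + 1) * y) ⊆ {v | v ∈ E ∧ v * (y⁻¹ * z) ∉ E} := by
      rintro _ ⟨n, rfl⟩
      refine ⟨hno (n + 1), ?_⟩
      have : (t⁻¹) ^ (n + 1) * y * (y⁻¹ * z) = (t⁻¹) ^ (n + 1) * z := by
        rw [mul_assoc, mul_inv_cancel_left]
      rw [this]
      exact hneg n
    have hi2 : Function.Injective (fun n : ℕ => (t⁻¹) ^ (n + 1) * y) := by
      intro a b hab
      have h1 : (t⁻¹) ^ (a + 1) * y = (t⁻¹) ^ (b + 1) * y := hab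
      have h2 : a + 1 = b + 1 := hinj' (mul_right_cancel h1)
      omega
    exact Set.infinite_range_of_injective hi2 (hfin.subset hsub)
  have hup : ∀ y : X, ∃ n : ℕ, t ^ n * y ∈ E := by
    intro y
    by_contra hno
    push_neg at hno
    have hfin := hE (z⁻¹ * y)
    have hsub : Set.range (fun n : ℕ => t ^ n * z) ⊆ {v | v ∈ E ∧ v * (z⁻¹ * y) ∉ E} := by
      rintro _ ⟨n, rfl⟩
      refine ⟨hpos n, ?_⟩
      have : t ^ n * z * (z⁻¹ * y) = t ^ n * y := by rw [mul_assoc, mul_inv_cancel_left]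
      rw [this]
      exact hno n
    have hi2 : Function.Injective (fun n : ℕ => t ^ n * z) := by
      intro a b hab
      exact hinj (mul_right_cancel (show t ^ a * z = t ^ b * z from hab))
    exact Set.infinite_range_of_injective hi2 (hfin.subset hsub)
  have hcov : ∀ y : X, ∃ w ∈ E ∩ {y | t⁻¹ * y ∈ E}ᶜ, ∃ s ∈ Subgroup.zpowers t, y = s * w := by
    intro y
    classical
    obtain ⟨n, hn⟩ := hlow y
    obtain ⟨m, hm⟩ := hup y
    have hex : ∃ k : ℕ, t ^ k * ((t⁻¹) ^ n * y) ∈ E := by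
      refine ⟨m + n, ?_⟩
      have : t ^ (m + n) * ((t⁻¹) ^ n * y) = t ^ m * y := by
        rw [pow_add, inv_pow, mul_assoc, mul_inv_cancel_left]
      rw [this]
      exact hm
    have h1 := Nat.find_spec hex
    obtain ⟨k, hk⟩ : ∃ k, Nat.find hex = k + 1 := by
      apply Nat.exists_eq_succ_of_ne_zero
      intro h0
      rw [h0, pow_zero, one_mul] at h1
      exact hn h1
    have h2 : t ^ k * ((t⁻¹) ^ n * y) ∉ E := Nat.find_min hex (by omega)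
    rw [hk] at h1
    refine ⟨t ^ (k + 1) * ((t⁻¹) ^ n * y), ⟨h1, ?_⟩, (t ^ (k + 1) * (t⁻¹) ^ n)⁻¹, ?_, ?_⟩
    · change ¬ (t⁻¹ * (t ^ (k + 1) * ((t⁻¹) ^ n * y)) ∈ E)
      have : t⁻¹ * (t ^ (k + 1) * ((t⁻¹) ^ n * y)) = t ^ k * ((t⁻¹) ^ n * y) := by
        rw [pow_succ', mul_assoc, inv_mul_cancel_left]
      rw [this]
      exact h2
    · apply Subgroup.inv_mem
      apply Subgroup.mul_mem
      · exact Subgroup.pow_mem _ (Subgroup.mem_zpowers t) _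
      · exact Subgroup.pow_mem _ (Subgroup.inv_mem _ (Subgroup.mem_zpowers t)) _
    · group
  have hfinF : Finite (E ∩ {y | t⁻¹ * y ∈ E}ᶜ : Set X) := hFfin
  have hsur : Function.Surjective (fun w : (E ∩ {y | t⁻¹ * y ∈ E}ᶜ : Set X) =>
      (QuotientGroup.mk ((w : X)⁻¹) : X ⧸ Subgroup.zpowers t)) := by
    intro q
    obtain ⟨x, rfl⟩ := QuotientGroup.mk_surjective q
    obtain ⟨w, hw, s, hs, hx⟩ := hcov x⁻¹
    refine ⟨⟨w, hw⟩, ?_⟩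
    change (QuotientGroup.mk w⁻¹ : X ⧸ Subgroup.zpowers t) = QuotientGroup.mk x
    rw [QuotientGroup.eq]
    have : (w⁻¹)⁻¹ * x = s⁻¹ := by
      have h1 : x = (s * w)⁻¹ := by rw [← hx, inv_inv]
      rw [h1, mul_inv_rev, inv_inv, mul_inv_cancel_left]
    rw [this]
    exact Subgroup.inv_mem _ hs
  have : Finite (X ⧸ Subgroup.zpowers t) := Finite.of_surjective _ hsur
  exact Subgroup.index_ne_zero_of_finite

end Twoaux

open Twoaux in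
/-- Two ends. -/
theorem vTwo (hBas : S_Bas.{u}) (hN : S_N.{u}) : S_Two.{u} := by
  intro X _ hX C hC hi hic h3
  obtain ⟨E, hEC, t, ht, z, hz, hz'⟩ := claim hBas hN hX hC hi hic
  refine ⟨t, ?_⟩
  rcases hEC with rfl | rfl
  · exact conc hBas hC hi hic h3 ht hz hz'
  · exact conc hBas (hBas X C C hC hC).1 hic (by rwa [compl_compl]) h3 ht hz hz'

end Pool.Agent.MPcc2398.OE
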