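import Pool.Agent.Lib.MP_cc2398_al.OE.Spec

set_option autoImplicit false

namespace Pool.Agent.MPcc2398.OE

open Pool.Agent.MPcc2398

universe u

theorem vTy' (hN : S_N.{u}) (hBas : S_Bas.{u}) : S_Ty.{u} := by
  classical
  intro X _ hfg C hC
  have h1 : ∀ i j : Fin 3, ∃ Φ : Set X, Φ.Finite ∧ ∀ g : X, g ∉ Φ → g⁻¹ ∉ (C i)ᶜ → g ∈ C j →
      ∀ a ∈ (C i)ᶜ, g * a ∈ C j := fun i j => hN X hfg (C i)ᶜ (C j) (hBas X (C i) (C i) (hC i) (hC i)).1 (hC j)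
  choose Φ hΦ h using h1
  refine ⟨⋃ i, ⋃ j, Φ i j, Set.finite_iUnion fun i => Set.finite_iUnion fun j => hΦ i j, ?_⟩
  intro g hg i j hgi hgj y hy
  refine h i j g (fun h0 => hg ?_) (fun h0 => h0 hgi) hgj y hy
  exact Set.mem_iUnion.2 ⟨i, Set.mem_iUnion.2 ⟨j, h0⟩⟩

end Pool.Agent.MPcc2398.OE
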