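import Pool.Agent.Lib.MP_cc2398_al.OE.Spec

/-!
# MP_cc2398_al, project OE: elements which map the complement of an end set into this set
-/

set_option autoImplicit false

namespace Pool.Agent.MPcc2398.OE

open Pool.Agent.MPcc2398

universe u

namespace Unaux

theorem others : ∀ k : Fin 3, ∃ i j : Fin 3, i ≠ j ∧ i ≠ k ∧ j ≠ k := by decide

theorem three : ∀ i j k : Fin 3, i ≠ j → i ≠ k → j ≠ k → ∀ p : Fin 3, p = i ∨ p = j ∨ p = k := by
  decide

theorem mp_inv {X : Type u} [Group X] {g : X} {A B : Set X} (h : Mp g A B) : Mp g⁻¹ B A := by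
  intro y hy
  by_contra h1
  apply hy
  have h2 := h _ h1
  rwa [mul_inv_cancel_left] at h2

theorem mp_comp {X : Type u} [Group X] {g g' : X} {A B A' B' : Set X} (h : Mp g A B)
    (h' : Mp g' A' B') (hd : Disjoint B A') : Mp (g' * g) A B' := by
  intro y hy
  rw [mul_assoc]
  exact h' _ fun h1 => Set.disjoint_left.1 hd (h y hy) h1

/-- The combinatorial part. -/
theorem logic (P : Fin 3 → Fin 3 → Prop) (i j k : Fin 3) (hij : i ≠ j)
    (hsymm : ∀ p q, P p q → P q p)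
    (hcomp : ∀ p q p' q', P p q → P p' q' → q ≠ p' → P p q')
    (ha : P j j ∨ P j k ∨ P k j ∨ P k k) (hb : P i i ∨ P i k ∨ P k i ∨ P k k)
    (hc : P i k ∨ P j k ∨ P k k) : P k k := by
  by_contra hk
  have ha' : P j j ∨ P j k := by
    rcases ha with h | h | h | h
    · exact Or.inl h
    · exact Or.inr h
    · exact Or.inr (hsymm _ _ h)
    · exact absurd h hk
  have hb' : P i i ∨ P i k := by
    rcases hb with h | h | h | h
    · exact Or.inl h
    · exact Or.inr h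
    · exact Or.inr (hsymm _ _ h)
    · exact absurd h hk
  by_cases hjk : P j k
  · rcases hb' with h | h
    · exact hk (hcomp k i j k (hcomp k j i i (hsymm _ _ hjk) h hij.symm) hjk hij)
    · exact hk (hcomp k j i k (hsymm _ _ hjk) h hij.symm)
  · have hik : P i k := by
      rcases hc with h | h | h
      · exact h
      · exact absurd h hjk
      · exact absurd h hk
    have hjj : P j j := by
      rcases ha' with h | h
      · exact h
      · exact absurd h hjk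
    exact hk (hcomp k j i k (hcomp k i j j (hsymm _ _ hik) hjj hij) hik hij.symm)

/-- The use of `S_NSt`. -/
theorem two (hNSt : S_NSt.{u}) {X : Type u} [Group X] (hX : Group.FG X) (C : Fin 3 → Set X)
    (hAI : ∀ i, AI (C i)) (hinf : ∀ i, (C i).Infinite) (hdis : ∀ i j, i ≠ j → Disjoint (C i) (C j))
    (hun : (⋃ i, C i) = Set.univ) (Φ : Set X) (hΦ : Φ.Finite)
    (hTy : ∀ g : X, g ∉ Φ → ∀ i j, g⁻¹ ∈ C i → g ∈ C j → Mp g (C i) (C j))
    (i j k : Fin 3) (hij : i ≠ j) (hik : i ≠ k) (hjk : j ≠ k) :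
    (∃ g, Mp g (C j) (C j)) ∨ (∃ g, Mp g (C j) (C k)) ∨ (∃ g, Mp g (C k) (C j)) ∨
      ∃ g, Mp g (C k) (C k) := by
  have hcov : ∀ x : X, x ∈ C i ∨ x ∈ C j ∨ x ∈ C k := by
    intro x
    have hx : x ∈ ⋃ i, C i := by rw [hun]; exact Set.mem_univ x
    obtain ⟨p, hp⟩ := Set.mem_iUnion.1 hx
    rcases three i j k hij hik hjk p with rfl | rfl | rfl
    · exact Or.inl hp
    · exact Or.inr (Or.inl hp)
    · exact Or.inr (Or.inr hp)
  have huniv : C i ∪ C j ∪ C k = Set.univ := by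
    rw [Set.eq_univ_iff_forall]
    intro x
    rcases hcov x with h | h | h
    · exact Or.inl (Or.inl h)
    · exact Or.inl (Or.inr h)
    · exact Or.inr h
  have h1 := hNSt X hX (C i) (C j) (C k) (hAI i) (hAI j) (hAI k) (hinf i) (hinf j) (hinf k)
    (hdis i j hij) (hdis i k hik) (hdis j k hjk) huniv
  obtain ⟨g, ⟨hg1, hg2⟩, hg3⟩ := h1.exists_notMem_finite hΦ
  have h2 : g ∈ C j ∨ g ∈ C k := (hcov g).resolve_left hg1
  have h3 : g⁻¹ ∈ C j ∨ g⁻¹ ∈ C k := (hcov g⁻¹).resolve_left hg2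
  rcases h2 with h2 | h2 <;> rcases h3 with h3 | h3
  · exact Or.inl ⟨g, hTy g hg3 _ _ h3 h2⟩
  · exact Or.inr (Or.inr (Or.inl ⟨g, hTy g hg3 _ _ h3 h2⟩))
  · exact Or.inr (Or.inl ⟨g, hTy g hg3 _ _ h3 h2⟩)
  · exact Or.inr (Or.inr (Or.inr ⟨g, hTy g hg3 _ _ h3 h2⟩))

end Unaux

open Unaux

/-- **Un**. -/
theorem vUn (hTy : S_Ty.{u}) (hNSt : S_NSt.{u}) : S_Un.{u} := by
  intro X _ hX C hAI hinf hdis hun k
  obtain ⟨Φ, hΦ, hT⟩ := hTy X hX C hAI
  obtain ⟨i, j, hij, hik, hjk⟩ := others k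
  have ha := two hNSt hX C hAI hinf hdis hun Φ hΦ hT i j k hij hik hjk
  have hb := two hNSt hX C hAI hinf hdis hun Φ hΦ hT j i k hij.symm hjk hik
  have hc : (∃ g, Mp g (C i) (C k)) ∨ (∃ g, Mp g (C j) (C k)) ∨ ∃ g, Mp g (C k) (C k) := by
    obtain ⟨g, hg1, hg2⟩ := (hinf k).exists_notMem_finite hΦ
    have hx : g⁻¹ ∈ ⋃ i, C i := by rw [hun]; exact Set.mem_univ _
    obtain ⟨p, hp⟩ := Set.mem_iUnion.1 hx
    rcases three i j k hij hik hjk p with rfl | rfl | rfl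
    · exact Or.inl ⟨g, hT g hg2 _ _ hp hg1⟩
    · exact Or.inr (Or.inl ⟨g, hT g hg2 _ _ hp hg1⟩)
    · exact Or.inr (Or.inr ⟨g, hT g hg2 _ _ hp hg1⟩)
  exact logic (fun p q => ∃ g, Mp g (C p) (C q)) i j k hij
    (fun p q ⟨g, hg⟩ => ⟨g⁻¹, mp_inv hg⟩)
    (fun p q p' q' ⟨g, hg⟩ ⟨g', hg'⟩ hne => ⟨g' * g, mp_comp hg hg' (hdis q p' hne)⟩) ha hb hc

end Pool.Agent.MPcc2398.OE
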