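import Pool.Agent.Lib.MP_cc2398_al.OE.Spec

/-!
# MP_cc2398_al, project OE, module Wd: words in two letters
-/

set_option autoImplicit false

namespace Pool.Agent.MPcc2398.OE

open Pool.Agent.MPcc2398

universe u

/-- The number of the `z ∈ D` with `z (a v)⁻¹ ∉ D`. -/
private theorem Wd_cnt {X : Type u} [Group X] (D : Set X) (hD : AI D) (a v : X) (c m : ℕ)
    (ha : {z | z ∈ D ∧ z * a⁻¹ ∉ D}.ncard ≤ c) (hv : {z | z ∈ D ∧ z * v⁻¹ ∉ D}.ncard ≤ m) :
    {z | z ∈ D ∧ z * (a * v)⁻¹ ∉ D}.ncard ≤ m + c := by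
  have hsub : {z | z ∈ D ∧ z * (a * v)⁻¹ ∉ D} ⊆ {z | z ∈ D ∧ z * v⁻¹ ∉ D} ∪
      (fun z => z * v) '' {z | z ∈ D ∧ z * a⁻¹ ∉ D} := by
    rintro z ⟨h1, h2⟩
    by_cases h3 : z * v⁻¹ ∈ D
    · right
      refine ⟨z * v⁻¹, ⟨h3, ?_⟩, ?_⟩
      · rw [mul_inv_rev, ← mul_assoc] at h2
        exact h2
      · simp
    · left
      exact ⟨h1, h3⟩
  have hf1 : {z | z ∈ D ∧ z * v⁻¹ ∉ D}.Finite := hD v⁻¹
  have hf2 : ((fun z => z * v) '' {z | z ∈ D ∧ z * a⁻¹ ∉ D}).Finite := (hD a⁻¹).image _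
  calc {z | z ∈ D ∧ z * (a * v)⁻¹ ∉ D}.ncard
      ≤ ({z | z ∈ D ∧ z * v⁻¹ ∉ D} ∪ (fun z => z * v) '' {z | z ∈ D ∧ z * a⁻¹ ∉ D}).ncard :=
        Set.ncard_le_ncard hsub (hf1.union hf2)
    _ ≤ {z | z ∈ D ∧ z * v⁻¹ ∉ D}.ncard + ((fun z => z * v) '' {z | z ∈ D ∧ z * a⁻¹ ∉ D}).ncard :=
        Set.ncard_union_le _ _
    _ ≤ m + c := add_le_add hv ((Set.ncard_image_le (hD a⁻¹)).trans ha)

theorem vWd : S_Wd.{u} := by
  classical
  intro X _ D C₂ C₃ a b c hne hD h2 h3 hdis ha hb hca hcb n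
  obtain ⟨d₀, hd₀⟩ := hne
  induction n with
  | zero =>
    refine ⟨{1}, by simp, fun w hw d hd => ?_, fun w hw => ?_⟩
    · rw [Finset.mem_singleton.1 hw, one_mul]
      exact hd
    · rw [Finset.mem_singleton.1 hw]
      have : {z | z ∈ D ∧ z * (1 : X)⁻¹ ∉ D} = ∅ := by
        ext z
        simp
      rw [this, Set.ncard_empty]
      exact Nat.zero_le _
  | succ n ih =>
    obtain ⟨T, hT1, hT2, hT3⟩ := ih
    refine ⟨T.image (fun v => a * v) ∪ T.image (fun v => b * v), ?_, ?_, ?_⟩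
    · have hd : Disjoint (T.image (fun v => a * v)) (T.image (fun v => b * v)) := by
        rw [Finset.disjoint_left]
        intro w hw hw'
        obtain ⟨v, hv, rfl⟩ := Finset.mem_image.1 hw
        obtain ⟨v', hv', he⟩ := Finset.mem_image.1 hw'
        have e1 : a * (v * d₀) ∈ C₂ := ha _ (hT2 v hv d₀ hd₀)
        have e2 : b * (v' * d₀) ∈ C₃ := hb _ (hT2 v' hv' d₀ hd₀)
        have e3 : b * (v' * d₀) = a * (v * d₀) := by
          rw [← mul_assoc, ← mul_assoc]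
          exact congrArg (fun y => y * d₀) he
        rw [e3] at e2
        exact Set.disjoint_left.1 hdis e1 e2
      rw [Finset.card_union_of_disjoint hd,
        Finset.card_image_of_injective _ (mul_right_injective a),
        Finset.card_image_of_injective _ (mul_right_injective b), hT1, pow_succ]
      ring
    · intro w hw d hd
      rcases Finset.mem_union.1 hw with hw | hw
      · obtain ⟨v, hv, rfl⟩ := Finset.mem_image.1 hw
        rw [mul_assoc]
        exact h2 (ha _ (hT2 v hv d hd))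
      · obtain ⟨v, hv, rfl⟩ := Finset.mem_image.1 hw
        rw [mul_assoc]
        exact h3 (hb _ (hT2 v hv d hd))
    · intro w hw
      have e : (n + 1) * c = n * c + c := by ring
      rw [e]
      rcases Finset.mem_union.1 hw with hw | hw
      · obtain ⟨v, hv, rfl⟩ := Finset.mem_image.1 hw
        exact Wd_cnt D hD a v c (n * c) hca (hT3 v hv)
      · obtain ⟨v, hv, rfl⟩ := Finset.mem_image.1 hw
        exact Wd_cnt D hD b v c (n * c) hcb (hT3 v hv)

end Pool.Agent.MPcc2398.OE
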