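import Pool.Agent.Lib.MP_cc2398_al.OE.Bas
import Pool.Agent.Lib.MP_cc2398_al.OE.N
import Pool.Agent.Lib.MP_cc2398_al.OE.Wd
import Pool.Agent.Lib.MP_cc2398_al.OE.NSt
import Pool.Agent.Lib.MP_cc2398_al.OE.TyB
import Pool.Agent.Lib.MP_cc2398_al.OE.Hy
import Pool.Agent.Lib.MP_cc2398_al.OE.Un
import Pool.Agent.Lib.MP_cc2398_al.OE.Sch
import Pool.Agent.Lib.MP_cc2398_al.OE.E
import Pool.Agent.Lib.MP_cc2398_al.OE.Two
import Pool.Agent.Lib.MP_cc2398_al.OE.Sm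
import Pool.Agent.Lib.MP_cc2398_al.OE.EX
import Pool.Agent.Lib.MP_cc2398_al.OE.PPB
import Pool.Agent.Lib.MP_cc2398_al.OE.Fin
import Pool.Agent.Lib.MP_cc2398_al.OE.DC
import Pool.Agent.Lib.MP_cc2398_al.OE.PM
import Pool.Agent.Lib.MP_cc2398_al.OE.Inf
import Pool.Agent.Lib.MP_cc2398_al.OE.One

set_option autoImplicit false

/-!
# MP_cc2398_al, project OE: assembly
-/

namespace Pool.Agent.MPcc2398.OE

universe u

theorem aBas : S_Bas.{u} := vBas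
theorem aN : S_N.{u} := vN
theorem aWd : S_Wd.{u} := vWd
theorem aNSt : S_NSt.{u} := vNSt aN aWd
theorem aTy : S_Ty.{u} := vTy' aN aBas
theorem aHy : S_Hy.{u} := vHy aTy
theorem aUn : S_Un.{u} := vUn aTy aNSt
theorem aSch : S_Sch.{u} := vSch aBas aHy aUn
theorem aE : S_E.{u} := vE aBas aN
theorem aTwo : S_Two.{u} := vTwo aBas aN
theorem aSm : S_Sm.{u} := vSm
theorem aEX : S_EX.{u} := vEX
theorem aPP : S_PP.{u} := vPP' aSm
theorem aFin : S_Fin.{u} := vFin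
theorem aDC : S_DC.{u} := vDC
theorem aPM : S_PM.{u} := vPM aBas aE aSm aEX
theorem aInf : S_Inf.{u} := vInf aSch aPM aPP aFin aDC aEX aSm
theorem aOne : S_One.{u} := vOne aInf aTwo

end Pool.Agent.MPcc2398.OE
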