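import Pool.Agent.Lib.MP_cc2398_al.OE.Spec

/-!
# MP_cc2398_al, project OE: basic properties of almost invariant sets
-/

set_option autoImplicit false

namespace Pool.Agent.MPcc2398.OE

open Pool.Agent.MPcc2398

universe u

theorem vBas : S_Bas.{u} := by
  intro X _ A B hA hB
  refine ⟨fun x => ?_, fun x => ?_, fun x => ?_, fun g x => ?_⟩
  · refine ((hA x⁻¹).image fun z => z * x⁻¹).subset ?_
    rintro y ⟨hy, hyx⟩
    rw [Set.mem_compl_iff] at hy
    rw [Set.mem_compl_iff, not_not] at hyx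
    exact ⟨y * x, ⟨hyx, by rwa [mul_inv_cancel_right]⟩, by simp⟩
  · refine ((hA x).union (hB x)).subset ?_
    rintro y ⟨⟨hyA, hyB⟩, hyx⟩
    by_cases h : y * x ∈ A
    · exact Or.inr ⟨hyB, fun h' => hyx ⟨h, h'⟩⟩
    · exact Or.inl ⟨hyA, h⟩
  · refine ((hA x).union (hB x)).subset ?_
    rintro y ⟨hy | hy, hyx⟩
    · exact Or.inl ⟨hy, fun h => hyx (Or.inl h)⟩
    · exact Or.inr ⟨hy, fun h => hyx (Or.inr h)⟩
  · refine ((hA x).image fun z => g * z).subset ?_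
    rintro y ⟨hy, hyx⟩
    refine ⟨g⁻¹ * y, ⟨hy, fun h => hyx ?_⟩, by simp⟩
    change g⁻¹ * (y * x) ∈ A
    rwa [← mul_assoc]

end Pool.Agent.MPcc2398.OE
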