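import Pool.Agent.Lib.MP_cc2398_al.OE.Spec

/-!
# MP_cc2398_al, project OE: ping-pong on ultrafilters (module PP)
-/

set_option autoImplicit false

namespace Pool.Agent.MPcc2398.OE

open Pool.Agent.MPcc2398

universe u

namespace PPaux

open scoped Pointwise

/-- The ultrafilters which contain no set with finite intersections with the right cosets of `H`. -/
def UF {G : Type u} [Group G] (H : Subgroup G) : Type u :=
  {U : Ultrafilter G // ∀ E : Set G, Sm H E → E ∉ U}

/-- The action of `G` on `UF H`. -/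
@[instance_reducible]
noncomputable def act (hSm : S_Sm.{u}) {G : Type u} [Group G] (H : Subgroup G) (hH : Inert H) :
    MulAction G (UF H) where
  smul g U := ⟨U.1.map (fun y => g * y), fun E hE hEU => by
    rw [Ultrafilter.mem_map] at hEU
    refine U.2 _ ?_ hEU
    have h := (hSm G H hH E E hE).2.2.2 g⁻¹
    rw [inv_inv] at h
    exact h⟩
  one_smul U := by
    refine Subtype.ext ?_
    change U.1.map (fun y => 1 * y) = U.1
    simp
  mul_smul g k U := by
    refine Subtype.ext ?_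
    change U.1.map (fun y => g * k * y) = (U.1.map (fun y => k * y)).map (fun y => g * y)
    rw [Ultrafilter.map_map]
    congr 1
    funext y
    exact mul_assoc g k y

end PPaux

open scoped Pointwise in
open PPaux in
theorem vPP (hSm : S_Sm.{u}) : S_PP.{u} := by
  intro G _ H hH h P M hinf hPM hPP hMM hmap
  let _ : MulAction G (UF H) := act hSm H hH
  have hsmul : ∀ (g : G) (U : UF H) (E : Set G), E ∈ (g • U).1 ↔ {y | g * y ∈ E} ∈ U.1 := by
    intro g U E
    exact Ultrafilter.mem_map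
  have hmono : ∀ E F : Set G, Sm H E → F ⊆ E → Sm H F := fun E F hE hF => (hSm G H hH E F hE).1 hF
  -- the index type in the universe of `G`
  have hlift : FreeGroup.lift h = (FreeGroup.lift fun i : ULift.{u} ℕ => h i.down).comp
      (FreeGroup.freeGroupCongr (Equiv.ulift.{u}.symm : ℕ ≃ ULift.{u} ℕ)).toMonoidHom := by
    ext i
    simp
  suffices hinj : Function.Injective (FreeGroup.lift fun i : ULift.{u} ℕ => h i.down) by
    rw [hlift, MonoidHom.coe_comp]
    exact hinj.comp (MulEquiv.injective _)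
  refine FreeGroup.injective_lift_of_ping_pong (fun i : ULift.{u} ℕ => h i.down)
    (fun i => {U : UF H | P i.down ∈ U.1}) (fun i => {U : UF H | M i.down ∈ U.1}) ?_ ?_ ?_ ?_ ?_ ?_
  · intro i
    have hne : (Filter.cofinite ⊓ Filter.principal {y | y ∈ P i.down ∧ y ∈ H}).NeBot :=
      Filter.cofinite_inf_principal_neBot_iff.2 (hinf i.down)
    obtain ⟨U, hU⟩ := Filter.exists_ultrafilter_le (Filter.cofinite ⊓ Filter.principal {y | y ∈ P i.down ∧ y ∈ H})
    have hU1 : {y | y ∈ P i.down ∧ y ∈ H} ∈ U := hU (Filter.mem_inf_of_right (Filter.mem_principal_self _))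
    refine ⟨⟨U, fun E hE hEU => ?_⟩, ?_⟩
    · have h1 := hE 1
      have h2 : {y | y ∈ E ∧ y * (1 : G)⁻¹ ∈ H}ᶜ ∈ U := hU (Filter.mem_inf_of_left h1.compl_mem_cofinite)
      have h3 := Filter.inter_mem (Filter.inter_mem hU1 hEU) h2
      obtain ⟨y, ⟨⟨-, hyH⟩, hyE⟩, hy⟩ := Ultrafilter.nonempty_of_mem h3
      refine hy ⟨hyE, ?_⟩
      rw [inv_one, mul_one]
      exact hyH
    · exact Filter.mem_of_superset hU1 fun y hy => hy.1
  · intro i j hij
    refine Set.disjoint_left.2 fun U hU hU' => ?_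
    exact U.2 _ (hPP i.down j.down fun h => hij (ULift.ext _ _ h)) (Filter.inter_mem hU hU')
  · intro i j hij
    refine Set.disjoint_left.2 fun U hU hU' => ?_
    exact U.2 _ (hMM i.down j.down fun h => hij (ULift.ext _ _ h)) (Filter.inter_mem hU hU')
  · intro i j
    refine Set.disjoint_left.2 fun U hU hU' => ?_
    exact U.2 _ (hPM i.down j.down) (Filter.inter_mem hU hU')
  · rintro ⟨i⟩
    rintro _ ⟨U, hU, rfl⟩
    have hU' : M i ∉ U.1 := hU
    show P i ∈ (h i • U).1
    rw [hsmul]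
    by_contra hcon
    have h1 : {y | h i * y ∈ P i}ᶜ ∈ U.1 := Ultrafilter.compl_mem_iff_notMem.2 hcon
    have h2 : (M i)ᶜ ∈ U.1 := Ultrafilter.compl_mem_iff_notMem.2 hU'
    refine U.2 _ (hmap i) (Filter.mem_of_superset (Filter.inter_mem h2 h1) ?_)
    intro y hy
    exact ⟨hy.1, hy.2⟩
  · rintro ⟨i⟩
    rintro _ ⟨U, hU, rfl⟩
    have hU' : P i ∉ U.1 := hU
    show M i ∈ ((h i)⁻¹ • U).1
    by_contra hcon
    apply hU'
    have h2 : (M i)ᶜ ∈ ((h i)⁻¹ • U).1 := Ultrafilter.compl_mem_iff_notMem.2 hcon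
    have h3 : {y | h i * y ∈ P i} ∈ ((h i)⁻¹ • U).1 := by
      by_contra hcon'
      have h1 : {y | h i * y ∈ P i}ᶜ ∈ ((h i)⁻¹ • U).1 := Ultrafilter.compl_mem_iff_notMem.2 hcon'
      refine ((h i)⁻¹ • U).2 _ (hmap i) (Filter.mem_of_superset (Filter.inter_mem h2 h1) ?_)
      intro y hy
      exact ⟨hy.1, hy.2⟩
    have h4 : P i ∈ (h i • (h i)⁻¹ • U).1 := (hsmul _ _ _).2 h3
    rwa [smul_inv_smul] at h4

end Pool.Agent.MPcc2398.OE
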