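import Pool.Agent.Lib.MP_cc2398_al.OE.Spec

/-!
# MP_cc2398_al, project OE: small sets
-/

set_option autoImplicit false

namespace Pool.Agent.MPcc2398.OE

open Pool.Agent.MPcc2398

universe u

theorem vSm : S_Sm.{u} := by
  intro G _ H hin E F hE
  refine ⟨fun hFE g => (hE g).subset fun y hy => ⟨hFE hy.1, hy.2⟩, fun hF g => ?_, fun g => ?_, fun g z => ?_⟩
  · refine ((hE g).union (hF g)).subset ?_
    rintro y ⟨hy | hy, h2⟩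
    · exact Or.inl ⟨hy, h2⟩
    · exact Or.inr ⟨hy, h2⟩
  · simp
  · have hK : H.relIndex (cj g⁻¹ H) ≠ 0 := hin g⁻¹
    haveI : (H.subgroupOf (cj g⁻¹ H)).FiniteIndex := ⟨hK⟩
    haveI : Finite ((cj g⁻¹ H) ⧸ H.subgroupOf (cj g⁻¹ H)) := Subgroup.finite_quotient_of_finiteIndex
    refine (Set.finite_iUnion fun q : (cj g⁻¹ H) ⧸ H.subgroupOf (cj g⁻¹ H) =>
      (hE ((((q.out : cj g⁻¹ H) : G))⁻¹ * (g⁻¹ * z))).image (fun v => g * v)).subset ?_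
    rintro y ⟨hy1, hy2⟩
    have hk : (g⁻¹ * y) * (g⁻¹ * z)⁻¹ ∈ cj g⁻¹ H := by
      rw [mem_cj']
      have h3 : (g⁻¹)⁻¹ * ((g⁻¹ * y) * (g⁻¹ * z)⁻¹) * g⁻¹ = y * z⁻¹ := by group
      rw [h3]
      exact hy2
    rw [Set.mem_iUnion]
    refine ⟨QuotientGroup.mk (⟨_, hk⟩ : cj g⁻¹ H)⁻¹, ?_⟩
    refine ⟨g⁻¹ * y, ⟨hy1, ?_⟩, by group⟩
    obtain ⟨w, hw⟩ := QuotientGroup.mk_out_eq_mul (H.subgroupOf (cj g⁻¹ H)) (⟨_, hk⟩ : cj g⁻¹ H)⁻¹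
    have hw2 : (w : cj g⁻¹ H) ∈ H.subgroupOf (cj g⁻¹ H) := w.2
    rw [Subgroup.mem_subgroupOf] at hw2
    rw [hw]
    have h4 : (g⁻¹ * y) * (((((⟨_, hk⟩ : cj g⁻¹ H)⁻¹ * (w : cj g⁻¹ H) : cj g⁻¹ H) : G))⁻¹ * (g⁻¹ * z))⁻¹ =
        ((w : cj g⁻¹ H) : G) := by
      push_cast
      group
    rw [h4]
    exact hw2

end Pool.Agent.MPcc2398.OE
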