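import Pool.Agent.Lib.MP_cc2398_al.Defs

/-!
# MP_cc2398_al, project OE: finitely generated stabilizers have at most one end

THEOREM (OneEnded).  Let `G` be a totally imprimitive barely transitive group and `K` a finitely generated subgroup
commensurable with a point stabilizer `H`.  Then `K` has at most one end: each `A ⊆ K` such that `{y ∈ A : y k ∉ A}` is
finite for all `k ∈ K` is finite or has finite complement.

PLAN.  `AI A`: `A` is (right) almost invariant.  Left translates of `AI` sets are `AI`.  (1) In a finitely generated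
group `X` translates `g A` with `g` outside of a finite set are nested with a given `AI` set (`S_N`).  (2) If `X` has
three disjoint infinite `AI` sets, it has infinitely many disjoint Schottky pairs `(P i, M i)`: `t_i (X - M i) ⊆ P i`
(`S_Sch`; the main point is that `X` does not fix an end, `S_NSt`).  (3) `G ≥ H = X` acts on the ends of `H`: `H`-sets
`A` are extended to `EX H A ⊆ G` (right cosets `H y`, one representative each), and sets with finite intersection with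
each right coset `H y` are neglected (`Sm H`); the left action of `G` preserves `Sm H`.  (4) Choose `g_i ∈ G` in
different double cosets of `H`; for suitable `u_i ∈ H`, `l_i` the elements `h_i = t_i u_i g_i t_i ^ (l_i + 1)` map the
complement of `M i` into `P i` modulo `Sm H` (`S_PM`), so by the ping-pong lemma on ultrafilters (`S_PP`) they generate
a free group.  Its orbit on `G / H` is infinite, so it is `G`; but `G` has no subgroup of index two (`S_Fin`).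
(5) If `X` has exactly two ends it is virtually cyclic (`S_Two`), which is excluded by `Main`.

Every `S_Xxx` is proved in its own file `OE/Xxx.lean` as `theorem vXxx`, with the used statements as hypotheses in the
order of the docstring; all modules are independent (import this file only, unless said otherwise), all other
declarations `private`.  The proofs in the docstrings are complete.
-/

set_option autoImplicit false

namespace Pool.Agent.MPcc2398.OE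

open Pool.Agent.MPcc2398

universe u v

/-- `A` is almost invariant: `{y ∈ A : y x ∉ A}` is finite for each `x`. -/
def AI {X : Type u} [Group X] (A : Set X) : Prop := ∀ x : X, {y | y ∈ A ∧ y * x ∉ A}.Finite

/-- `E` has a finite intersection with each right coset `H g`. -/
def Sm {G : Type u} [Group G] (H : Subgroup G) (E : Set G) : Prop :=
  ∀ g : G, {y | y ∈ E ∧ y * g⁻¹ ∈ H}.Finite

/-- A chosen representative of the right coset `H g`. -/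
noncomputable def rp {G : Type u} [Group G] (H : Subgroup G) (g : G) : G :=
  (Quotient.mk (QuotientGroup.rightRel H) g).out

/-- The extension of `A ⊆ H` to `G`: the union of the sets `A r`, `r` the representative of a right coset `H r`. -/
noncomputable def EX {G : Type u} [Group G] (H : Subgroup G) (A : Set H) : Set G :=
  {y | ∃ h : H, h ∈ A ∧ (h : G) * rp H y = y}

/-! ## Part 1: almost invariant sets -/

/-- **Bas** (40 lines).  Basic properties of `AI`.  Proof.  (1) `{y ∉ A : y x ∈ A}` is the image of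
`{z ∈ A : z x⁻¹ ∉ A}` under `z ↦ z x⁻¹`.  (2) `{y ∈ A ∩ B : y x ∉ A ∩ B}` is contained in
`{y ∈ A : y x ∉ A} ∪ {y ∈ B : y x ∉ B}`; the same for the union.  (3) `{y ∈ g A : y x ∉ g A}` is the image of
`{z ∈ A : z x ∉ A}` under `z ↦ g z` (`g A = {y | g⁻¹ y ∈ A}`). -/
def S_Bas : Prop := ∀ (X : Type u) [Group X] (A B : Set X), AI A → AI B →
  AI Aᶜ ∧ AI (A ∩ B) ∧ AI (A ∪ B) ∧ ∀ g : X, AI {y | g⁻¹ * y ∈ A}

/-- **N** (80 lines).  Nestedness.  Proof.  Let `Σ` be a finite generating set with `Σ⁻¹ = Σ`.  Let `∂` be the set of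
the `y` such that for some `σ ∈ Σ` not both or none of `y, y σ` are in `A`, or the same with `C`; it is finite (`AI`,
first for `σ ∈ Σ` the `y ∈ A` with `y σ ∉ A`, and the `y ∉ A` with `y σ ∈ A` are the `z σ⁻¹`, `z ∈ A`, `z σ⁻¹ ∉ A`).
Every element is a product of elements of `Σ`, so there is `n` such that each `b ∈ ∂` is a product of at most `n`
elements of `Σ`; let `B` be the finite set of all products of at most `n` elements of `Σ`.  `Φ` = the set of `g` such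
that `g b ∈ ∂` or `g⁻¹ b ∈ ∂` for some `b ∈ B` (finite).  Let `g ∉ Φ`, `g⁻¹ ∉ A`, `g ∈ C`.  (i) `g b ∈ C` for all
`b ∈ B`: induction on the length of the product, as `g b' ∉ ∂` for `b' ∈ B` (`g b' ∈ C` iff `g b' σ ∈ C`).  (ii) In the
same way `g⁻¹ b ∉ A` for all `b ∈ B`.  (iii) Let `D = {y | g⁻¹ y ∈ A, y ∉ C}`.  If `y ∈ D`, `σ ∈ Σ`, then `y σ ∈ D`:
if `g⁻¹ y σ ∉ A` then `g⁻¹ y ∈ ∂ ⊆ B`, so `y = g (g⁻¹ y) ∈ C` by (i), contradiction; if `y σ ∈ C` then `y ∈ ∂ ⊆ B`, so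
`g⁻¹ y ∉ A` by (ii), contradiction.  So `D` is empty or everything, but `g ∉ D`.  Hence `D = ∅`, which is the
claim. -/
def S_N : Prop := ∀ (X : Type u) [Group X], Group.FG X → ∀ A C : Set X, AI A → AI C →
  ∃ Φ : Set X, Φ.Finite ∧ ∀ g : X, g ∉ Φ → g⁻¹ ∉ A → g ∈ C → ∀ a ∈ A, g * a ∈ C

/-- **Wd** (80 lines).  Words in `a`, `b`.  For `w : Fin n → Bool` let `W w` be the product of the `n` letters
(`true ↦ a`, `false ↦ b`).  Proof.  Induction on `n` (use lists of length `n`, or any other model: only the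
existence of the finite set `T` is needed; `T 0 = {1}`, `T (n + 1) = a T n ∪ b T n`, two disjoint sets of the same size
as `T n`, because for `v, v' ∈ T n` and `d ∈ D` with `v d ∈ D`: `a v d ∈ C₂`, `b v' d ∈ C₃`; if `a v = b v'` then
`a v d = b v' d` is in both).  (1) `|T n| = 2 ^ n`.  (2) `w D ⊆ D` for `w ∈ T n`.  (3) for `w ∈ T n`
`{z ∈ D : z w⁻¹ ∉ D}` has at most `n c` elements: `w = a v`: if `z ∈ D`, `z w⁻¹ = (z v⁻¹) a⁻¹ ∉ D`, then `z v⁻¹ ∉ D`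
(at most `n c` such `z` by induction) or `z v⁻¹ ∈ D`, `(z v⁻¹) a⁻¹ ∉ D` (at most `c` such `z`). -/
def S_Wd : Prop := ∀ (X : Type u) [Group X] (D C₂ C₃ : Set X) (a b : X) (c : ℕ), D.Nonempty → AI D →
  C₂ ⊆ D → C₃ ⊆ D → Disjoint C₂ C₃ → (∀ d ∈ D, a * d ∈ C₂) → (∀ d ∈ D, b * d ∈ C₃) →
  {z | z ∈ D ∧ z * a⁻¹ ∉ D}.ncard ≤ c → {z | z ∈ D ∧ z * b⁻¹ ∉ D}.ncard ≤ c →
  ∀ n : ℕ, ∃ T : Finset X, T.card = 2 ^ n ∧ (∀ w ∈ T, ∀ d ∈ D, w * d ∈ D) ∧
    ∀ w ∈ T, {z | z ∈ D ∧ z * w⁻¹ ∉ D}.ncard ≤ n * c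

/-- **NSt** (150 lines, uses `S_N`, `S_Wd`).  `X` does not fix an end.  Proof.  Let `D = C₁ᶜ = C₂ ∪ C₃` (`AI`), and
suppose that `D ∩ D⁻¹` is finite.  `S_N` for `(D, C₂)`, `(D, C₃)`, `(D, D)`, `(D, C₁)`; let `Φ` be the union of the
four sets, their inverses and `D ∩ D⁻¹`: finite, `Φ⁻¹ = Φ`.  Choose `a ∈ C₂ \ Φ`, `b ∈ C₃ \ Φ` (infinite sets).
`a⁻¹ ∉ D` (as `a ∈ D`, `a ∉ D ∩ D⁻¹`), so `a D ⊆ C₂`; `b D ⊆ C₃`.  Let `c` be the maximum of the two numbers in `S_Wd`,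
fix `n` and let `T` be the set of `S_Wd`.  For `w ∈ T`: `w D ⊆ D`, that is `D ⊆ w⁻¹ D`.  For `w, w' ∈ T` and
`y = w' w⁻¹ ∉ Φ` the sets `w⁻¹ D`, `w'⁻¹ D` are nested: if `y⁻¹ ∉ D` then `y ∈ D` implies `y D ⊆ D`, i.e.
`w⁻¹ D ⊆ w'⁻¹ D`, and `y ∈ C₁` implies `y D ⊆ C₁`, i.e. `w⁻¹ D ∩ w'⁻¹ D = ∅`, impossible as both contain `D ≠ ∅`; if
`y⁻¹ ∈ D` then `y ∉ D` (`y ∉ D ∩ D⁻¹`) and the same argument for `y⁻¹ = w w'⁻¹` gives `w'⁻¹ D ⊆ w⁻¹ D`.  Choose
`w* ∈ T` such that the set `w*⁻¹ D` is maximal (a finite nonempty family of sets has a maximal element).  So each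
`w ∈ T` satisfies `w w*⁻¹ ∈ Φ`, or `w⁻¹ D ⊆ w*⁻¹ D` (if `w*⁻¹ D ⊆ w⁻¹ D` then they are equal).  In the second case
`x = w⁻¹` satisfies `D ⊆ x D ⊆ w*⁻¹ D`.  Fix `d₀ ∈ D`, `d₁ ∈ C₁`.  `d₀ ∈ x D`, i.e. `w d₀ ∈ D`; `w*⁻¹ d₁ ∉ w*⁻¹ D`, so it is
not in `x D`, i.e. `w w*⁻¹ d₁ ∉ D`.  So (with `z = w`) `w` is in the union of `{z ∉ D : z d₀ ∈ D}` (finite, independent
of `n`), `{z ∈ D : z w*⁻¹ ∉ D}` (at most `n c` elements) and `{z : z w*⁻¹ ∈ D, z w*⁻¹ d₁ ∉ D}` (translate of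
`{v ∈ D : v d₁ ∉ D}`, finite of size independent of `n`).  So `2 ^ n ≤ |Φ| + c₁ + n c + c₂` for all `n`,
contradiction. -/
def S_NSt : Prop := ∀ (X : Type u) [Group X], Group.FG X → ∀ C₁ C₂ C₃ : Set X, AI C₁ → AI C₂ → AI C₃ →
  C₁.Infinite → C₂.Infinite → C₃.Infinite → Disjoint C₁ C₂ → Disjoint C₁ C₃ → Disjoint C₂ C₃ →
  C₁ ∪ C₂ ∪ C₃ = Set.univ → {g | g ∉ C₁ ∧ g⁻¹ ∉ C₁}.Infinite

/-- `g` maps the complement of `A` into `B`. -/
def Mp {X : Type u} [Group X] (g : X) (A B : Set X) : Prop := ∀ y ∉ A, g * y ∈ B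

/-- **Ty** (60 lines, uses `S_N`, `S_Bas`).  Types.  Proof.  For each pair `(i, j)` `S_N` for `A = (C i)ᶜ`, `C = C j`:
for `g` outside of a finite set, `g⁻¹ ∈ C i` and `g ∈ C j` imply `g (C i)ᶜ ⊆ C j`.  `Φ` = the union. -/
def S_Ty : Prop := ∀ (X : Type u) [Group X], Group.FG X → ∀ C : Fin 3 → Set X, (∀ i, AI (C i)) →
  ∃ Φ : Set X, Φ.Finite ∧ ∀ g : X, g ∉ Φ → ∀ i j, g⁻¹ ∈ C i → g ∈ C j → Mp g (C i) (C j)

/-- **Hy** (60 lines, uses `S_Ty`).  A hyperbolic element.  Proof.  `Φ` from `S_Ty`, enlarged to `Φ = Φ⁻¹`.  If some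
`g ∉ Φ` has `g⁻¹ ∈ C i`, `g ∈ C j`, `i ≠ j`: done.  Otherwise `g ∉ Φ`, `g ∈ C j` imply `g⁻¹ ∈ C j` and
`Mp g (C j) (C j)`.  Take `g ∈ C 0 \ Φ`, `h ∈ C 1 \ Φ`: for `y ∉ C 1`: `h y ∈ C 1`, so `h y ∉ C 0`, so `g h y ∈ C 0`:
`Mp (g h) (C 1) (C 0)`. -/
def S_Hy : Prop := ∀ (X : Type u) [Group X], Group.FG X → ∀ C : Fin 3 → Set X, (∀ i, AI (C i)) →
  (∀ i, (C i).Infinite) → (∀ i j, i ≠ j → Disjoint (C i) (C j)) → (⋃ i, C i) = Set.univ →
  ∃ (g : X) (i j : Fin 3), i ≠ j ∧ Mp g (C i) (C j)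

/-- **Un** (100 lines, uses `S_Ty`, `S_NSt`).  For each `k` there is `u` with `Mp u (C k) (C k)`.  Proof.  Rules:
(inverse) `Mp g A B → Mp g⁻¹ B A` (if `y ∉ B` and `g⁻¹ y ∉ A` then `y = g (g⁻¹ y) ∈ B`); (composition) `Mp g A B`,
`Mp g' A' B'`, `Disjoint B A'` imply `Mp (g' g) A B'`.  Let `{i, j, k}` be the three indices.  Write `p → q` if there is
`g` with `Mp g (C p) (C q)`; so `p → q` implies `q → p`, and `p → q`, `p' → q'`, `q ≠ p'` imply `p → q'`.  By `S_Ty`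
each `g` outside of a finite set with `g⁻¹ ∈ C p`, `g ∈ C q` gives `p → q`.  By `S_NSt` (for `C i` and for `C j` in the
place of `C₁`): (a) one of `j → j`, `j → k`, `k → j`, `k → k`, so one of `j → j`, `j → k`, `k → k`; (b) one of `i → i`,
`i → k`, `k → k`.  As `C k` is infinite, (c) one of `i → k`, `j → k`, `k → k`.  Suppose `k → k` fails.  If `j → k`
and `i → k`: `k → j`, then `i → k` (`j ≠ i`): `k → k`.  If `j → k` and not `i → k`: by (b) `i → i`; `k → j`, then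
`i → i` (`j ≠ i`): `k → i`, then `j → k` (`i ≠ j`): `k → k`.  If not `j → k`: `i → k` by (c), `j → j` by (a):
`k → i`, `j → j`: `k → j`; then `i → k` (`j ≠ i`): `k → k`. -/
def S_Un : Prop := ∀ (X : Type u) [Group X], Group.FG X → ∀ C : Fin 3 → Set X, (∀ i, AI (C i)) →
  (∀ i, (C i).Infinite) → (∀ i j, i ≠ j → Disjoint (C i) (C j)) → (⋃ i, C i) = Set.univ →
  ∀ k : Fin 3, ∃ u : X, Mp u (C k) (C k)

/-- Schottky pairs `(P i, M i)` for `t i`. -/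
structure Sch {X : Type u} [Group X] (t : ℕ → X) (P M : ℕ → Set X) : Prop where
  aiP : ∀ i, AI (P i)
  aiM : ∀ i, AI (M i)
  infP : ∀ i, (P i).Infinite
  infM : ∀ i, (M i).Infinite
  disPM : ∀ i j, Disjoint (P i) (M j)
  disP : ∀ i j, i ≠ j → Disjoint (P i) (P j)
  disM : ∀ i j, i ≠ j → Disjoint (M i) (M j)
  map : ∀ i, Mp (t i) (M i) (P i)

/-- **Sch** (120 lines, uses `S_Bas`, `S_Hy`, `S_Un`).  Proof.  Replace `C 2` by the complement of `C 0 ∪ C 1` (`AI`,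
infinite): so we have a partition.  `S_Hy`: `Mp h (C i) (C j)`, `i ≠ j`; let `k` be the third index, and `S_Un`:
`Mp u (C k) (C k)`.  Write `g A = {y | g⁻¹ y ∈ A}`.  As `C i`, `C j` are disjoint from `C k`, `u C i`, `u C j ⊆ C k`, and
they are disjoint.  `t = u h u⁻¹` maps the complement of `u C i` into `u C j`.  `h C k ⊆ h (C i)ᶜ ⊆ C j`, and
`h C j ⊆ C j`, so `h ^ m C k ⊆ C j` for `m ≥ 1`, and the sets `h ^ m C k`, `m ∈ ℕ`, are pairwise disjoint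
(`h ^ m C k ∩ h ^ n C k = h ^ m (C k ∩ h ^ (n - m) C k)`, `m < n`).  `t m = h ^ m t h ^ (-m)`, `M m = h ^ m u C i`,
`P m = h ^ m u C j`, both subsets of `h ^ m C k`. -/
def S_Sch : Prop := ∀ (X : Type u) [Group X], Group.FG X → ∀ C : Fin 3 → Set X, (∀ i, AI (C i)) →
  (∀ i, (C i).Infinite) → (∀ i j, i ≠ j → Disjoint (C i) (C j)) →
  ∃ (t : ℕ → X) (P M : ℕ → Set X), Sch t P M

/-- **E** (80 lines, uses `S_Bas`, `S_N`).  The sets `t ^ l P` shrink to an end.  Proof.  `t M^c ⊆ P`, so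
`t⁻¹ P^c ⊆ M`, `t P ⊆ P`, `t⁻¹ M ⊆ M`.  The powers `t ^ l`, `l ∈ ℕ`, are different: `t ^ l z ∈ P` for `l ≥ 1`, so
`t ^ l ≠ 1`.  `t ^ (-l) ∉ P` for all large `l`: otherwise `t ^ (-l) ∈ P` for infinitely many `l`, and `t ^ (-l) z ∈ M`
for `l ≥ 1`, so `t ^ (-l) z ∉ P`, and `{y ∈ P : y z ∉ P}` would be infinite.  Let `Φ` be the union of the sets of
`S_N` for `(P, C)` and `(P, Cᶜ)`.  Take `l` large with `t ^ l ∉ Φ`, `t ^ (-l) ∉ P`: if `t ^ l ∈ C` then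
`t ^ l P ⊆ C`, otherwise `t ^ l P ⊆ Cᶜ`.  For all larger `l'` the same follows from `t ^ l' P ⊆ t ^ l P`. -/
def S_E : Prop := ∀ (X : Type u) [Group X], Group.FG X → ∀ (P M C : Set X) (t z : X), AI P → AI M → AI C →
  Disjoint P M → Mp t M P → z ∉ P → z ∉ M →
  ∃ l₀ : ℕ, ∀ l ≥ l₀, (∀ a ∈ P, t ^ l * a ∈ C) ∨ (∀ a ∈ P, t ^ l * a ∉ C)

/-- **Two** (200 lines, uses `S_Bas`, `S_N`).  Two ends.  Proof.  Let `C₀ = C`, `C₁ = Cᶜ`.  As in `S_Ty`, for `g`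
outside of a finite set `Φ = Φ⁻¹`: `g⁻¹ ∈ C_i`, `g ∈ C_j` imply `g (C_i)ᶜ ⊆ C_j`.  CLAIM: there are `t` and
`E ∈ {C, Cᶜ}` with `t E ⊆ E`, `t E ≠ E`.  (a) Suppose some `g ∉ Φ` has `g⁻¹ ∈ C_i`, `g ∈ C_j`, `i ≠ j`; `E = C_j = C_iᶜ`,
`g E ⊆ E`; if `g E = E` then also `g⁻¹ E = E`, and `1 ∈ E` would give `g⁻¹ ∈ E`, while `1 ∉ E` gives `g ∉ E`, both
false.  (b) Otherwise `g C₁ ⊆ C₀` for `g ∈ C₀ \ Φ`, `h C₀ ⊆ C₁` for `h ∈ C₁ \ Φ`.  Fix such an `h`.  `g h C₀ ⊆ g C₁ ⊆ C₀`.  If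
`g h C₀ = C₀` then `g C₁ = C₀`.  If this holds for infinitely many `g`, then infinitely many `x = g₀⁻¹ g` satisfy
`x C₁ = C₁`.  But there are `s`, `y` with `y ∈ C₁`, `y s ∉ C₁` (otherwise `C₁` is everything or empty), and then
`x y ∈ C₁`, `x y s ∉ C₁` for all these `x`, against `AI C₁`.  So some `g` gives `t = g h`, `E = C₀`.
Now `t ^ m` (`m ≥ 1`) is not `1` (`t ^ m E ⊆ t E ≠ E`).  `E \ t E` is finite: it is `AI`, disjoint from `t E` and `Eᶜ`,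
which are infinite and `AI`.  Let `y ∈ X`.  There is `n ≥ 0` with `t ^ (-n) y ∉ E`: otherwise `t ^ (-n) y ∈ E` for all
`n`, so `t ^ (-n) ∈ E` for large `n` (`AI`: `{v ∈ E : v y⁻¹ ∉ E}` is finite, `v = t ^ (-n) y`), but for `z ∈ E \ t E`
`t ^ (-n) z ∉ E` for `n ≥ 1`, which contradicts `AI E` (`{v ∈ E : v z ∉ E}` finite).  There is `n ≥ 0` with `t ^ n y ∈ E`:
otherwise `t ^ n y ∉ E` for all `n`, while `t ^ n z ∈ E` for `z ∈ E`: `{v ∈ E : v z⁻¹ y ∉ E}` is infinite (`v = t ^ n z`).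
So there is `m ∈ ℤ` with `y ∈ t ^ m E`, `y ∉ t ^ (m + 1) E` (the set of the `m` with `t ^ (-m) y ∈ E` is downward closed,
not empty, and not everything), so `y ∈ t ^ m (E \ t E)`.  So `X` is a finite union of right cosets of `⟨t⟩`. -/
def S_Two : Prop := ∀ (X : Type u) [Group X], Group.FG X → ∀ C : Set X, AI C → C.Infinite → Cᶜ.Infinite →
  (¬ ∃ C : Fin 3 → Set X, (∀ i, AI (C i)) ∧ (∀ i, (C i).Infinite) ∧ ∀ i j, i ≠ j → Disjoint (C i) (C j)) →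
  ∃ t : X, (Subgroup.zpowers t).index ≠ 0

/-! ## Part 2: the action of `G` -/

/-- `H` is commensurable with its conjugates. -/
def Inert {G : Type u} [Group G] (H : Subgroup G) : Prop := ∀ g : G, H.relIndex (cj g H) ≠ 0

/-- **Sm** (80 lines).  Proof.  (1)-(3) clear.  (4) `g E = {y | g⁻¹ y ∈ E}`.  `{y ∈ g E : y z⁻¹ ∈ H}` is the image under
`v ↦ g v` of `{v ∈ E : g v z⁻¹ ∈ H}`, and `g v z⁻¹ ∈ H` means `v (g⁻¹ z)⁻¹ ∈ g⁻¹ H g = cj g⁻¹ H`, which is a finite union of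
right cosets `H x_j` of `H` (`H.relIndex (cj g⁻¹ H) ≠ 0`: the subgroup `H ⊓ cj g⁻¹ H` has finite index in `cj g⁻¹ H`); so
`v` is in the finite union of the `H x_j g⁻¹ z`. -/
def S_Sm : Prop := ∀ (G : Type u) [Group G] (H : Subgroup G), Inert H → ∀ E F : Set G, Sm H E →
  (F ⊆ E → Sm H F) ∧ (Sm H F → Sm H (E ∪ F)) ∧ (Sm H (∅ : Set G)) ∧ ∀ g : G, Sm H {y | g⁻¹ * y ∈ E}

/-- **EX** (120 lines).  Proof.  `QuotientGroup.rightRel_apply`: `rightRel H a b ↔ b * a⁻¹ ∈ H`; so `rp H (h y) = rp H y`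
for `h ∈ H` and `rp H y * y⁻¹ ∈ H`.  (1) The `h` with `h rp H y = y` is unique, it is `y (rp H y)⁻¹ ∈ H`.  (2) `t y` has the
same representative as `y`, and the element for `t y` is `t h`.  (3) Let `g, z ∈ G`, `r = rp H z`, `r' = rp H (z g)`.  For
`y ∈ H z`: `y g ∈ H z g`, `y g r'⁻¹ = (y r⁻¹) (r g r'⁻¹)` with `x = r g r'⁻¹ ∈ H`.  So `y ∈ EX H A`, `y g ∉ EX H A` iff
`v = y r⁻¹ ∈ A`, `v x ∉ A`: finitely many `v`.  (4) `{h : H | ↑h ∈ B}` is `AI`: for `x ∈ H` the set of the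
`h ∈ H` with `h ∈ B`, `h x ∉ B` is `{y ∈ B : y x ∉ B} ∩ H`, finite by `Sm` (coset `H 1`).  If `A` is disjoint from it,
`y ∈ EX H A ∩ B`, `y ∈ H z`, `r = rp H z`: `y = h r`, `h ∈ A`, so `y r⁻¹ = h ∉ B`: `y` is in the finite set
`{y ∈ B : y r⁻¹ ∉ B} ∩ H z`.  (5) `EX H A ∩ H` is the set of the `h r`, `h ∈ A`, `r = rp H 1 ∈ H`. -/
def S_EX : Prop := ∀ (G : Type u) [Group G] (H : Subgroup G) (A : Set H),
  (∀ y : G, y ∈ EX H A ↔ ∃ h : H, h ∈ A ∧ (h : G) = y * (rp H y)⁻¹) ∧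
  (∀ (t : H) (y : G), (t : G) * y ∈ EX H A ↔ y ∈ EX H {h | t * h ∈ A}) ∧
  (AI A → ∀ g : G, Sm H {y | y ∈ EX H A ∧ y * g ∉ EX H A}) ∧
  (∀ B : Set G, (∀ g : G, Sm H {y | y ∈ B ∧ y * g ∉ B}) → AI {h : H | (h : G) ∈ B} ∧
    (Disjoint A {h : H | (h : G) ∈ B} → Sm H (EX H A ∩ B))) ∧
  (A.Infinite → {y | y ∈ EX H A ∧ y ∈ H}.Infinite) ∧
  (∀ A' : Set H, Disjoint A A' → Disjoint (EX H A) (EX H A'))

/-- **PP** (120 lines, uses `S_Sm`).  Ping-pong.  Proof.  `α` = the set of the ultrafilters `𝒰` on `G` which contain no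
`E` with `Sm H E`.  `G` acts on `α` by `g 𝒰 = map (g * ·) 𝒰` (`Ultrafilter.map`): if `E ∈ g 𝒰`, `Sm H E`, then
`{y | g y ∈ E} ∈ 𝒰`, which is `Sm H` by `S_Sm` (for `g⁻¹`); this is a `MulAction G α`.  Use
`FreeGroup.injective_lift_of_ping_pong` with `X i = {𝒰 | P i ∈ 𝒰}`, `Y i = {𝒰 | M i ∈ 𝒰}`.  Nonempty: the filter
`𝓟 (P i ∩ H) ⊓ cofinite` is proper, take an ultrafilter `𝒰` below it; if `E ∈ 𝒰`, `Sm H E`, then `E ∩ H` is finite, its
complement is in `𝒰`, and `(P i ∩ H) ∩ E ∩ (E ∩ H)ᶜ = ∅`.  Disjoint: `P i ∩ P j ∈ 𝒰` is `Sm H`.  `h i • (Y i)ᶜ ⊆ X i`: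
if `M i ∉ 𝒰` then `(M i)ᶜ ∈ 𝒰`, the set `{y | y ∉ M i ∧ h i y ∉ P i}` is `Sm H`, so it is not in `𝒰`, so
`{y | h i y ∈ P i} ∈ 𝒰`.  `(h i)⁻¹ • (X i)ᶜ ⊆ Y i`: if `P i ∉ 𝒰` and `M i ∉ (h i)⁻¹ 𝒰` then `P i ∈ h i (h i)⁻¹ 𝒰 = 𝒰`,
contradiction. -/
def S_PP : Prop := ∀ (G : Type u) [Group G] (H : Subgroup G), Inert H → ∀ (h : ℕ → G) (P M : ℕ → Set G),
  (∀ i, {y | y ∈ P i ∧ y ∈ H}.Infinite) → (∀ i j, Sm H (P i ∩ M j)) →
  (∀ i j, i ≠ j → Sm H (P i ∩ P j)) → (∀ i j, i ≠ j → Sm H (M i ∩ M j)) →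
  (∀ i, Sm H {y | y ∉ M i ∧ h i * y ∉ P i}) → Function.Injective (FreeGroup.lift h)

/-- **Fin** (80 lines).  Proof.  Let `K` be the range of `FreeGroup.lift h`.  The cosets `h i H` are different, so `H ∩ K`
has infinite index in `K` (`H.relIndex K = 0`), so `K = ⊤` by `TB.rel`.  So `FreeGroup.lift h` is an isomorphism.  Let
`f : G → Multiplicative (ZMod 2)` be the homomorphism with `h i ↦ ofAdd 1` (the inverse of the isomorphism followed by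
`FreeGroup.lift`), `N` its kernel: `N ≠ ⊤` (`h 0 ∉ N`), `N` has finite index (finite range), so
`H.index ≠ 0` by `rel` for `N` (`relIndex_mul_index`-like: `H ⊓ N` has finite index in `N`, which has finite index
in `G`), against `TB.idx`. -/
def S_Fin : Prop := ∀ (G : Type u) [Group G] (H : Subgroup G), TB H → ∀ h : ℕ → G,
  (∀ i j, i ≠ j → (h i)⁻¹ * h j ∉ H) → ¬ Function.Injective (FreeGroup.lift h)

/-- **DC** (80 lines).  Proof.  `Inert H`: `cj g H ≠ ⊤` (`H ≠ ⊤` as `H.index = 0`), `TB.rel`.  A double coset `H g H` is a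
finite union of left cosets `x H`: `h g H = h' g H` iff `h⁻¹ h' ∈ cj g H`, and `cj g H ⊓ H` has finite index in `H` (from
`Inert H` for `g⁻¹`: `H.relIndex (cj g⁻¹ H) ≠ 0`, conjugate by `g`: `(cj g H).relIndex H ≠ 0`).  As `G / H` is infinite, for each
finite set `s` there is `g` not in `H x H` for all `x ∈ s`.  Choose the `g i` one after the other (strong
recursion, e.g. `exists_seq_of_forall_finset_exists`). -/
def S_DC : Prop := ∀ (G : Type u) [Group G] (H : Subgroup G), TB H → Inert H ∧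
  ∃ g : ℕ → G, ∀ i j, i ≠ j → ∀ a ∈ H, ∀ b ∈ H, a * g i * b ≠ g j

/-- **PM** (150 lines, uses `S_Bas`, `S_E`, `S_Sm`, `S_EX`).  One step.  Proof.  `P' = EX H P` etc.  By (2) of `S_EX`
`t` maps the complement of `M'` into `P'`, and `t' M' ∩ M' = ∅` for `t'`.  Let `B₁ = g⁻¹ M' = {y | g y ∈ M'}`,
`B₂ = {y | t'⁻¹ g y ∈ M'}` (that is `g⁻¹ t' M'`): disjoint, and right invariant modulo `Sm H` (by (3) of `S_EX` and
`S_Sm` (4)).  `C_i = {h : H | ↑h ∈ B_i}` are disjoint and `AI`.  `S_E` for `C₁` and `C₂` (with `z ∉ P`, `z ∉ M`): for large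
`l`, `t ^ l P` is in `C_i` or disjoint from it; as it is nonempty and `C₁`, `C₂` are disjoint, it is disjoint from
one of them, say `C_i`; let `u = 1` if `i = 1` and `u = t'⁻¹` if `i = 2`, so `B_i = {y | u g y ∈ M'}`.  By (4) of `S_EX`
(for the set `t ^ l P`) `Sm H (t ^ l P' ∩ B_i)`.  Let `x = t u g t ^ (l + 1)`.  If `y ∉ M'`, then `t ^ (l + 1) y ∈ t ^ l P'`; if
`x y ∉ P'` then `u g t ^ (l + 1) y ∈ M'`, so `t ^ (l + 1) y ∈ t ^ l P' ∩ B_i`: so the bad `y` are in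
`t ^ (-l-1) (t ^ l P' ∩ B_i)`, which is `Sm H`. -/
def S_PM : Prop := ∀ (G : Type u) [Group G] (H : Subgroup G), Inert H → Group.FG H →
  ∀ (P M : Set H) (t t' z : H) (g : G), AI P → AI M → P.Nonempty → Disjoint P M → Mp t M P → z ∉ P → z ∉ M →
  (∀ y ∈ M, t' * y ∉ M) →
  ∃ a ∈ H, ∃ b ∈ H, Sm H {y | y ∉ EX H M ∧ (a * g * b) * y ∉ EX H P}

/-- **Inf** (100 lines, uses `S_Sch`, `S_PM`, `S_PP`, `S_Fin`, `S_DC`, `S_EX`, `S_Sm`).  No three ends.  Proof.  `S_DC`: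
`Inert H`, `g i`.  `S_Sch` for the group `H`: `t`, `P`, `M`.  For each `i` apply `S_PM` with `P i`, `M i`, `t i`, `t' = t j`,
`j = i + 1`: for `y ∈ M i`, `y ∉ M j`, so `t j y ∈ P j`, so `t j y ∉ M i` (`disPM`); `z ∈ P j` (nonempty; `disP`, `disPM`); get
`a i`, `b i`, `h i = a i * g i * b i`.  `(h i)⁻¹ h j ∉ H` for `i ≠ j` (otherwise `g j ∈ H g i H`).  `S_PP` for `h`,
`EX H (P i)`, `EX H (M i)` ((5), (6) of `S_EX`), and `S_Fin`. -/
def S_Inf : Prop := ∀ (G : Type u) [Group G] (H : Subgroup G), TB H → Group.FG H →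
  ¬ ∃ C : Fin 3 → Set H, (∀ i, AI (C i)) ∧ (∀ i, (C i).Infinite) ∧ ∀ i j, i ≠ j → Disjoint (C i) (C j)

/-- **One** (120 lines; import also `MP_cc2398_al.All` for `aMain`, `aCom`; uses `S_Inf`, `S_Two`).  THE THEOREM.  Proof.
`TB K` holds for `Co H K`: `K.index = 0` (otherwise `K.relIndex`... `H.index ≠ 0` as `K` has a subgroup `H ⊓ K` of
finite index), `K.relIndex L ≠ 0` for `L ≠ ⊤` (`aCom` (3)), `join`, `cyc` do not depend on `H`.  Suppose `A` and `Aᶜ` are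
infinite.  By `S_Inf` for `K` and `S_Two` there is `t ∈ K` with `⟨t⟩` of finite index in `K`, so `Co H ⟨t⟩`.  If `LF ⊤` then `K`,
finitely generated, is finite, contradiction.  Otherwise `R` from `aMain`; `⟨t⟩` is commutative, so by (B3) for
`K = N = ⟨t⟩` `⟨t⟩ ≤ R`, and by (B1) every `g` is in `R` (`[g, k] ∈ R` for `k ∈ ⟨t⟩ ≤ R` normal), so `R = ⊤`,
contradiction. -/
def S_One : Prop := ∀ (G : Type u) [Group G] (H : Subgroup G), TB H →
  (∀ N : Subgroup G, N.Normal → N ≤ H → N = ⊥) → ∀ K : Subgroup G, Co H K → Group.FG K →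
  ∀ A : Set K, AI A → A.Finite ∨ Aᶜ.Finite

end Pool.Agent.MPcc2398.OE
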