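import Pool.Agent.Lib.MP_cc2398_al.OE.Spec

/-!
# MP_cc2398_al, project OE, module Ty: types of elements

`vTy`: `S_N` and `S_Bas` imply `S_Ty`.
-/

set_option autoImplicit false

namespace Pool.Agent.MPcc2398.OE

open Pool.Agent.MPcc2398

universe u

/-- **Ty**. -/
theorem vTy (hN : S_N.{u}) (hBas : S_Bas.{u}) : S_Ty.{u} := by
  intro X _ hX C hC
  have key : ∀ p : Fin 3 × Fin 3, ∃ Φ : Set X, Φ.Finite ∧
      ∀ g : X, g ∉ Φ → g⁻¹ ∈ C p.1 → g ∈ C p.2 → Mp g (C p.1) (C p.2) := by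
    rintro ⟨i, j⟩
    obtain ⟨Φ, hΦ, h⟩ := hN X hX (C i)ᶜ (C j) (hBas X (C i) (C i) (hC i) (hC i)).1 (hC j)
    exact ⟨Φ, hΦ, fun g hg hgi hgj y hy => h g hg (fun h' => h' hgi) hgj y hy⟩
  choose Φ hΦ h using key
  exact ⟨⋃ p, Φ p, Set.finite_iUnion hΦ, fun g hg i j hgi hgj =>
    h (i, j) g (fun hg' => hg (Set.mem_iUnion.2 ⟨(i, j), hg'⟩)) hgi hgj⟩

end Pool.Agent.MPcc2398.OE
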